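import Pool.Agent.Lib.H78Y.A0

set_option autoImplicit false

/-!
H78Y: ASSEMBLY of the bounds with a factor `β` for an arbitrary property `Hyp` of the types, without the case of many
equations of H78W (jets with poles).
-/

open MvPolynomial

namespace Pool.Agent.H78Y

open Pool.Agent.H89T Pool.Agent.H67T Pool.Agent.H53U Pool.Agent.H78M Pool.Agent.H78W

/-- What has to be known about a property `Hyp (N, type)` (`N + 1` the number of the variables) and a property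
`Ptd (n, type)` of the pointed complete intersections of dimension `n`; as `Tr`, without the jets of H78W. -/
structure Tr1 (β : ℕ) (Ptd Hyp : ℕ → (c : ℕ) → (Fin c → ℕ) → Prop) : Prop where
  algK : ∀ {n k q c : ℕ} {d : Fin c → ℕ}, 1 ≤ n → 1 ≤ k → (∀ j, 1 ≤ d j) → AlgKB β n k q d → Ptd n c d
  ry : ∀ {n c : ℕ} {d : Fin c → ℕ}, 1 ≤ n → (∀ j, 1 ≤ d j) → Ptd (n + n) c d → Hyp (n + c) c d
  sub : ∀ {N c c' : ℕ} {d : Fin c → ℕ} (e : Fin c' → Fin c), Function.Injective e →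
    Hyp N c' (fun j => d (e j)) → Hyp N c d

variable {β : ℕ} {Ptd Hyp : ℕ → (c : ℕ) → (Fin c → ℕ) → Prop}

/-- The case of the quadratic count. -/
theorem caseQB1 (T : Tr1 β Ptd Hyp) (hβ : 1 ≤ β) {n c : ℕ} (hn : 1 ≤ n) {d : Fin c → ℕ}
    (hd : ∀ j, 2 ≤ d j)
    (hS : ∀ K : Finset (Fin c), K.card < 2 * n → 64 * n ^ 2 * β ≤ ∑ j ∈ Kᶜ, (d j - 1)) :
    Hyp (n + c) c d := by
  have hd1 : ∀ j, 1 ≤ d j := fun j => (hd j).trans' one_le_two
  refine T.ry hn hd1 (T.algK (q := 2 * (n + n)) (k := 1) (by omega) le_rfl hd1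
    (algKB_of_algQB (algQB_of_propQB hd1 (propQB hβ (by omega) hd fun K hK => ?_))))
  refine le_trans (le_of_eq ?_) (hS K (by omega))
  ring

/-- Theorem V (a) with the factor `β`: `e` is the number of the `j` with `d j < 4 n`. -/
theorem finalAB1 (T : Tr1 β Ptd Hyp) (hβ : 1 ≤ β) (n c : ℕ) (hn : 1 ≤ n) (d : Fin c → ℕ) (hd : ∀ j, 2 ≤ d j)
    (h : 250 * (n : ℝ) ^ 2 * (2 * (n : ℝ) + (Finset.univ.filter fun j => d j < 4 * n).card) *
      (1 + Real.log n) * β ≤ ∑ j ∈ Finset.univ.filter (fun j => 4 * n ≤ d j), ((d j : ℝ) - 1)) :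
    Hyp (n + c) c d := by
  classical
  have hd1 : ∀ j, 1 ≤ d j := fun j => (hd j).trans' one_le_two
  set J : Finset (Fin c) := Finset.univ.filter (fun j => 4 * n ≤ d j) with hJ
  have hcard : (Finset.univ.filter fun j => d j < 4 * n).card = c - J.card := by
    have h1 : (Finset.univ.filter fun j => d j < 4 * n) = Jᶜ := by
      ext j
      simp [hJ]
    rw [h1, Finset.card_compl, Fintype.card_fin]
  rw [hcard] at h
  refine T.ry hn hd1 (T.algK (q := 100) (k := 4 * n) (by omega) (by omega) hd1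
    (algKB_of_propVB (J := J) (by omega) (fun j hj => ?_)
      (propVB_of_countVB (by omega) (by omega) J hd1 (countVB_of_bound hβ hn J hd1 h))))
  rw [hJ, Finset.mem_filter] at hj
  exact hj.2

/-- Theorem V (b) with the factor `β`: all types. -/
theorem finalBB1 (T : Tr1 β Ptd Hyp) (hβ : 1 ≤ β) (n c : ℕ) (hn : 1 ≤ n) (d : Fin c → ℕ) (hd : ∀ j, 2 ≤ d j)
    (h : 17100 * (n : ℝ) ^ 4 * (1 + Real.log n) * β ^ 2 ≤ ∑ j, ((d j : ℝ) - 1)) :
    Hyp (n + c) c d := by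
  classical
  by_cases hS : ∀ K : Finset (Fin c), K.card < 2 * n → 64 * n ^ 2 * β ≤ ∑ j ∈ Kᶜ, (d j - 1)
  · exact caseQB1 T hβ hn hd hS
  push Not at hS
  obtain ⟨K, hK, hKs⟩ := hS
  apply finalAB1 T hβ n c hn d hd
  -- the small degrees
  obtain ⟨S, hSdef⟩ : ∃ S : Finset (Fin c), S = Finset.univ.filter (fun j => d j < 4 * n) := ⟨_, rfl⟩
  obtain ⟨L, hLdef⟩ : ∃ L : Finset (Fin c), L = Finset.univ.filter (fun j => 4 * n ≤ d j) := ⟨_, rfl⟩
  rw [← hSdef, ← hLdef]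
  have hsplit : ∑ j, (d j - 1) = ∑ j ∈ S, (d j - 1) + ∑ j ∈ L, (d j - 1) := by
    have h1 : L = Sᶜ := by
      ext j
      simp [hSdef, hLdef]
    rw [h1]
    exact (Finset.sum_add_sum_compl S _).symm
  have h1 : S.card ≤ K.card + ∑ j ∈ Kᶜ, (d j - 1) := by
    have h2 : S ⊆ K ∪ Kᶜ := by
      intro j _
      rw [Finset.union_compl]
      exact Finset.mem_univ j
    have h3 := (Finset.card_le_card h2).trans (Finset.card_union_le K Kᶜ)
    have h4 : Kᶜ.card ≤ ∑ j ∈ Kᶜ, (d j - 1) := by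
      rw [Finset.card_eq_sum_ones]
      refine Finset.sum_le_sum fun j _ => ?_
      have := hd j
      omega
    omega
  have h2 : ∑ j ∈ S, (d j - 1) ≤ K.card * (4 * n - 2) + ∑ j ∈ Kᶜ, (d j - 1) := by
    have h3 : ∑ j ∈ S, (d j - 1) = ∑ j ∈ S ∩ K, (d j - 1) + ∑ j ∈ S ∩ Kᶜ, (d j - 1) := by
      rw [← Finset.sum_union]
      · congr 1
        rw [← Finset.inter_union_distrib_left, Finset.union_compl, Finset.inter_univ]
      · exact Finset.disjoint_of_subset_left Finset.inter_subset_right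
          (Finset.disjoint_of_subset_right Finset.inter_subset_right disjoint_compl_right)
    have h4 : ∑ j ∈ S ∩ K, (d j - 1) ≤ K.card * (4 * n - 2) := by
      calc ∑ j ∈ S ∩ K, (d j - 1) ≤ ∑ _j ∈ S ∩ K, (4 * n - 2) := by
            refine Finset.sum_le_sum fun j hj => ?_
            rw [Finset.mem_inter, hSdef, Finset.mem_filter] at hj
            omega
        _ = (S ∩ K).card * (4 * n - 2) := by rw [Finset.sum_const, smul_eq_mul]
        _ ≤ K.card * (4 * n - 2) :=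
            Nat.mul_le_mul_right _ (Finset.card_le_card Finset.inter_subset_right)
    have h5 : ∑ j ∈ S ∩ Kᶜ, (d j - 1) ≤ ∑ j ∈ Kᶜ, (d j - 1) :=
      Finset.sum_le_sum_of_subset Finset.inter_subset_right
    omega
  have h6 : K.card * (4 * n - 2) ≤ 8 * n ^ 2 := by
    calc K.card * (4 * n - 2) ≤ (2 * n) * (4 * n) := Nat.mul_le_mul hK.le (by omega)
      _ = 8 * n ^ 2 := by ring
  have hnβ : n ^ 2 ≤ n ^ 2 * β := Nat.le_mul_of_pos_right _ hβ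
  have e64 : 64 * n ^ 2 * β = 64 * (n ^ 2 * β) := mul_assoc _ _ _
  have h7 : S.card ≤ 66 * (n ^ 2 * β) := by
    have : n ≤ n ^ 2 := Nat.le_self_pow two_ne_zero n
    omega
  have h8 : ∑ j ∈ S, (d j - 1) ≤ 72 * (n ^ 2 * β) := by omega
  have hcast : ∀ T : Finset (Fin c), ((∑ j ∈ T, (d j - 1) : ℕ) : ℝ) = ∑ j ∈ T, ((d j : ℝ) - 1) := by
    intro T
    rw [Nat.cast_sum]
    refine Finset.sum_congr rfl fun j _ => ?_
    rw [Nat.cast_sub ((hd j).trans' one_le_two), Nat.cast_one]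
  have h9 : ∑ j, ((d j : ℝ) - 1) = ((∑ j ∈ S, (d j - 1) : ℕ) : ℝ) + ∑ j ∈ L, ((d j : ℝ) - 1) := by
    rw [← hcast, ← hcast, hsplit, Nat.cast_add]
  have h10 : ((∑ j ∈ S, (d j - 1) : ℕ) : ℝ) ≤ 72 * ((n : ℝ) ^ 2 * β) := by exact_mod_cast h8
  have h11 : (S.card : ℝ) ≤ 66 * ((n : ℝ) ^ 2 * β) := by exact_mod_cast h7
  have hβr : (1 : ℝ) ≤ β := by exact_mod_cast hβ
  have hn1 : (1 : ℝ) ≤ n := by exact_mod_cast hn
  have hlog : 0 ≤ Real.log n := Real.log_nonneg hn1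
  have hn2 : (0 : ℝ) < (n : ℝ) ^ 2 := by positivity
  have h12 : 250 * (n : ℝ) ^ 2 * (2 * (n : ℝ) + S.card) * (1 + Real.log n) * β ≤
      250 * (n : ℝ) ^ 2 * (2 * (n : ℝ) + 66 * ((n : ℝ) ^ 2 * β)) * (1 + Real.log n) * β := by gcongr
  have h13 : 250 * (n : ℝ) ^ 2 * (2 * (n : ℝ) + 66 * ((n : ℝ) ^ 2 * β)) ≤ 17000 * ((n : ℝ) ^ 4 * β) := by
    have h14 : (n : ℝ) ^ 3 ≤ (n : ℝ) ^ 4 := pow_le_pow_right₀ hn1 (by norm_num)
    have h14' : (n : ℝ) ^ 4 * 1 ≤ (n : ℝ) ^ 4 * β := mul_le_mul_of_nonneg_left hβr (by positivity)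
    have e14 : 250 * (n : ℝ) ^ 2 * (2 * (n : ℝ) + 66 * ((n : ℝ) ^ 2 * β)) =
        500 * (n : ℝ) ^ 3 + 16500 * ((n : ℝ) ^ 4 * β) := by ring
    rw [e14]
    linarith
  have h15 : 250 * (n : ℝ) ^ 2 * (2 * (n : ℝ) + 66 * ((n : ℝ) ^ 2 * β)) * (1 + Real.log n) * β ≤
      17000 * ((n : ℝ) ^ 4 * β) * (1 + Real.log n) * β := by gcongr
  have h16 : 72 * ((n : ℝ) ^ 2 * β) ≤ 100 * (n : ℝ) ^ 4 * (1 + Real.log n) * β ^ 2 := by
    have h17 : (n : ℝ) ^ 2 ≤ (n : ℝ) ^ 4 := pow_le_pow_right₀ hn1 (by norm_num)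
    have h18 : (n : ℝ) ^ 4 ≤ (n : ℝ) ^ 4 * (1 + Real.log n) :=
      le_mul_of_one_le_right (by positivity) (by linarith)
    have h20 : (β : ℝ) ≤ β ^ 2 := le_self_pow₀ hβr two_ne_zero
    have h21 : (n : ℝ) ^ 2 * β ≤ ((n : ℝ) ^ 4 * (1 + Real.log n)) * β ^ 2 :=
      mul_le_mul (h17.trans h18) h20 (by positivity) (by positivity)
    have h22 : 0 ≤ (n : ℝ) ^ 2 * β := by positivity
    linarith
  have h19 : 17100 * (n : ℝ) ^ 4 * (1 + Real.log n) * β ^ 2 =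
      17000 * ((n : ℝ) ^ 4 * β) * (1 + Real.log n) * β +
      100 * (n : ℝ) ^ 4 * (1 + Real.log n) * β ^ 2 := by ring
  linarith

/-- All degrees at least `kB β n`. -/
theorem caseLargeB1 (T : Tr1 β Ptd Hyp) (hβ : 1 ≤ β) {n c : ℕ} (hn : 1 ≤ n) {d : Fin c → ℕ}
    (hd : ∀ j, 8 * (n : ℝ) * LB β n ≤ d j)
    (hD : 1750 * β * (n : ℝ) ^ 2 * LB β n ^ 2 ≤ ((∑ j, (d j - 1) : ℕ) : ℝ)) :
    Hyp (n + c) c d := by
  have hk := le_kB hβ hn
  have hdk : ∀ j, kB β n ≤ d j := fun j => by exact_mod_cast (kB_le hβ hn).trans (hd j)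
  have hd2 : ∀ j, 2 ≤ d j := fun j => le_trans (by omega) (hdk j)
  by_cases hS : ∀ K : Finset (Fin c), K.card < 2 * n → 64 * n ^ 2 * β ≤ ∑ j ∈ Kᶜ, (d j - 1)
  · exact caseQB1 T hβ hn hd2 hS
  have hd1 : ∀ j, 1 ≤ d j := fun j => le_trans (by norm_num) (hd2 j)
  obtain ⟨hc66, j1, hj1⟩ := exists_largeB hβ hn hd2 (f3_bigB hβ (by norm_num) hn hD) hS
  have h1 := countNWB_2 hβ hn hc66 hj1 hD
  have h2 := propVB_of_count (n := 2 * n) (by omega) hd2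
    (dimVW (2 * n) (kB β n) c d j1 (by omega) hd2) h1
  have h3 := algKB_of_propVB (by omega) (fun j _ => hdk j) h2
  have h4 := T.algK (n := 2 * n) (by omega) (by omega) hd1 h3
  rw [two_mul] at h4
  exact T.ry hn hd1 h4

/-- Few equations: the equations of degree less than `8 (n + c) LB β (n + c)` are dropped. -/
theorem caseTwoB1 (T : Tr1 β Ptd Hyp) (hβ : 1 ≤ β) {n c : ℕ} (hn : 1 ≤ n) {d : Fin c → ℕ}
    (hd : ∀ j, 2 ≤ d j) (hc : 2 * (c : ℝ) ≤ 4 * n + 8 * n * LB β n)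
    (hD : 90000 * β * (n : ℝ) ^ 2 * LB β n ^ 4 ≤ ((∑ j, (d j - 1) : ℕ) : ℝ)) :
    Hyp (n + c) c d := by
  classical
  obtain ⟨S, hS⟩ : ∃ S : Finset (Fin c), S = Finset.univ.filter fun j =>
    (d j : ℝ) < 8 * ((n + c : ℕ) : ℝ) * LB β (n + c) := ⟨_, rfl⟩
  obtain ⟨T', hT⟩ : ∃ T' : Finset (Fin c), T' = Sᶜ := ⟨_, rfl⟩
  have hST : S.card + T'.card = c := by
    rw [hT, Finset.card_add_card_compl, Fintype.card_fin]
  let e : Fin T'.card → Fin c := fun i => (T'.equivFin.symm i : Fin c)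
  have he : Function.Injective e := fun i i' h => T'.equivFin.symm.injective (Subtype.ext h)
  have heT : ∀ i, 8 * ((n + c : ℕ) : ℝ) * LB β (n + c) ≤ d (e i) := by
    intro i
    have h1 : e i ∈ T' := (T'.equivFin.symm i).2
    rw [hT, Finset.mem_compl, hS, Finset.mem_filter] at h1
    by_contra h2
    exact h1 ⟨Finset.mem_univ _, not_le.1 h2⟩
  have hsum : ∑ i, (d (e i) - 1) = ∑ j ∈ T', (d j - 1) := by
    rw [← Finset.sum_coe_sort T' fun j => d j - 1]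
    exact Equiv.sum_comp T'.equivFin.symm fun x : T' => d (x : Fin c) - 1
  have hsplit : ∑ j ∈ S, (d j - 1) + ∑ j ∈ T', (d j - 1) = ∑ j, (d j - 1) := by
    rw [hT]
    exact Finset.sum_add_sum_compl S _
  have hB0 : (0 : ℝ) ≤ 8 * ((n + c : ℕ) : ℝ) * LB β (n + c) := by
    have := (LB_pos (n := n + c) hβ (by omega)).1
    positivity
  have hSle : ((∑ j ∈ S, (d j - 1) : ℕ) : ℝ) ≤ (c : ℝ) * (8 * ((n + c : ℕ) : ℝ) * LB β (n + c)) := by
    rw [Nat.cast_sum]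
    calc ∑ j ∈ S, ((d j - 1 : ℕ) : ℝ) ≤ ∑ _j ∈ S, 8 * ((n + c : ℕ) : ℝ) * LB β (n + c) := by
          refine Finset.sum_le_sum fun j hj => ?_
          rw [hS, Finset.mem_filter] at hj
          refine le_trans ?_ hj.2.le
          exact_mod_cast Nat.sub_le _ _
      _ = S.card * (8 * ((n + c : ℕ) : ℝ) * LB β (n + c)) := by rw [Finset.sum_const, nsmul_eq_mul]
      _ ≤ c * (8 * ((n + c : ℕ) : ℝ) * LB β (n + c)) := by
          refine mul_le_mul_of_nonneg_right ?_ hB0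
          exact_mod_cast (by omega : S.card ≤ c)
  have hnum := caseTwo_numB (n := n) (c := c) hβ hn hc
  have hTD : 1750 * β * ((n + c : ℕ) : ℝ) ^ 2 * LB β (n + c) ^ 2 ≤
      ((∑ j ∈ T', (d j - 1) : ℕ) : ℝ) := by
    have h1 : ((∑ j, (d j - 1) : ℕ) : ℝ) = ((∑ j ∈ S, (d j - 1) : ℕ) : ℝ) + ((∑ j ∈ T', (d j - 1) : ℕ) : ℝ) := by
      rw [← hsplit]
      exact Nat.cast_add _ _
    linarith
  obtain ⟨n', hn'⟩ : ∃ n' : ℕ, n' = n + S.card := ⟨_, rfl⟩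
  have hn'1 : 1 ≤ n' := by omega
  have hn'c : n' ≤ n + c := by omega
  have hN : n' + T'.card = n + c := by omega
  have hm := LB_mono (β := β) hn'1 hn'c
  have hm0 : 0 ≤ (n' : ℝ) * LB β n' := by
    have := (LB_pos (n := n') hβ hn'1).1
    positivity
  have hle : 1750 * β * (n' : ℝ) ^ 2 * LB β n' ^ 2 ≤
      1750 * β * ((n + c : ℕ) : ℝ) ^ 2 * LB β (n + c) ^ 2 := by
    have h1 := pow_le_pow_left₀ hm0 hm 2
    have h2 := mul_le_mul_of_nonneg_left h1 (show (0 : ℝ) ≤ 1750 * β by positivity)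
    refine le_trans (le_of_eq ?_) (h2.trans (le_of_eq ?_))
    · ring
    · ring
  have hL : Hyp (n' + T'.card) T'.card fun i => d (e i) := by
    refine caseLargeB1 T hβ hn'1 (fun i => ?_) ?_
    · have h1 : 8 * (n' : ℝ) * LB β n' ≤ 8 * ((n + c : ℕ) : ℝ) * LB β (n + c) := by linarith
      exact h1.trans (heT i)
    · rw [hsum]
      exact hle.trans hTD
  rw [hN] at hL
  exact T.sub e he hL

/-- Hypersurfaces. -/
theorem caseHyB1 (T : Tr1 β Ptd Hyp) (hβ : 1 ≤ β) {n : ℕ} (hn : 1 ≤ n) {d : Fin 1 → ℕ}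
    (hd : 1 + 1000 * β * (n : ℝ) ^ 2 * (6 + Real.log n) ^ 2 ≤ d 0) : Hyp (n + 1) 1 d := by
  have hβr : (1 : ℝ) ≤ β := by exact_mod_cast hβ
  have hn0 : (1 : ℝ) ≤ n := by exact_mod_cast hn
  have hlog : 0 ≤ Real.log n := Real.log_nonneg hn0
  have hd2 : 2 ≤ d 0 := by
    have h1 : (1 : ℝ) ≤ (n : ℝ) ^ 2 := by nlinarith
    have h2 : (1 : ℝ) ≤ (6 + Real.log n) ^ 2 := by nlinarith
    have h3 : (1 : ℝ) ≤ β * (n : ℝ) ^ 2 * (6 + Real.log n) ^ 2 :=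
      one_le_mul_of_one_le_of_one_le (one_le_mul_of_one_le_of_one_le hβr h1) h2
    have h4 : (2 : ℝ) ≤ d 0 := by linarith
    exact_mod_cast h4
  obtain ⟨e, he0⟩ : ∃ e, e = d 0 - 1 := ⟨_, rfl⟩
  have hde : d 0 = e + 1 := by omega
  have he : 1000 * β * (n : ℝ) ^ 2 * (6 + Real.log n) ^ 2 ≤ e := by
    rw [hde] at hd
    push_cast at hd
    linarith
  obtain ⟨k, hk1, hk2, hC⟩ := count_mainB hβ hn he
  have hall : ∀ j, d j = d 0 := fun j => by rw [Subsingleton.elim j 0]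
  have hd2' : ∀ j, 2 ≤ d j := fun j => by rw [hall]; exact hd2
  have hd1 : ∀ j, 1 ≤ d j := fun j => le_trans (by norm_num) (hd2' j)
  have hs : ∑ j, (d j - 1) = e := by
    rw [Fin.sum_univ_one, he0]
  have hC' : CountNWB β (2 * n) k (∑ j, (d j - 1)) (d 0 - 1) ((2 * n + 1 + 1) ^ 2) 2 100 := by
    rw [hs, ← he0]
    exact hC
  have h2 := propVB_of_count (n := 2 * n) (by omega) hd2' (dimVW (2 * n) k 1 d 0 hk1 hd2') hC'
  have h3 := algKB_of_propVB (by omega) (fun j _ => by rw [hall]; omega) h2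
  have h4 := T.algK (n := 2 * n) (by omega) (by omega) hd1 h3
  rw [two_mul] at h4
  exact T.ry hn hd1 h4

/-- ALL THE BOUNDS, with `L = 6 + log n + (log β) / (3 n)`. -/
theorem boundsB1 (T : Tr1 β Ptd Hyp) (hβ : 1 ≤ β) {n c : ℕ} (hn : 1 ≤ n) {d : Fin c → ℕ}
    (hd : ∀ j, 2 ≤ d j)
    (h : 17100 * (n : ℝ) ^ 4 * (1 + Real.log n) * β ^ 2 ≤ ∑ j, ((d j : ℝ) - 1) ∨
      250 * (n : ℝ) ^ 2 * (2 * (n : ℝ) + (Finset.univ.filter fun j => d j < 4 * n).card) *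
        (1 + Real.log n) * β ≤ ∑ j ∈ Finset.univ.filter (fun j => 4 * n ≤ d j), ((d j : ℝ) - 1) ∨
      (∀ K : Finset (Fin c), K.card < 2 * n → 64 * n ^ 2 * β ≤ ∑ j ∈ Kᶜ, (d j - 1)) ∨
      (c = 1 ∧ ∀ j, 1 + 1000 * β * (n : ℝ) ^ 2 * (6 + Real.log n) ^ 2 ≤ d j) ∨
      ((∀ j, 8 * (n : ℝ) * (6 + (Real.log n + Real.log β / (3 * n))) ≤ d j) ∧
        1750 * β * (n : ℝ) ^ 2 * (6 + (Real.log n + Real.log β / (3 * n))) ^ 2 ≤ ∑ j, ((d j : ℝ) - 1)) ∨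
      2 * (c : ℝ) ≤ 4 * (n : ℝ) + 8 * n * (6 + (Real.log n + Real.log β / (3 * n))) ∧
        90000 * β * (n : ℝ) ^ 2 * (6 + (Real.log n + Real.log β / (3 * n))) ^ 4 ≤
          ∑ j, ((d j : ℝ) - 1)) :
    Hyp (n + c) c d := by
  have hcast : ∑ j, ((d j : ℝ) - 1) = ((∑ j, (d j - 1) : ℕ) : ℝ) := by
    rw [Nat.cast_sum]
    refine Finset.sum_congr rfl fun j _ => ?_
    rw [Nat.cast_sub (le_trans (by omega) (hd j)), Nat.cast_one]
  have hL : LB β n = 6 + (Real.log n + Real.log β / (3 * n)) := rfl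
  rw [← hL] at h
  rcases h with h | h | h | ⟨rfl, h⟩ | ⟨hdj, h⟩ | ⟨hc, h⟩
  · exact finalBB1 T hβ n c hn d hd h
  · exact finalAB1 T hβ n c hn d hd h
  · exact caseQB1 T hβ hn hd h
  · exact caseHyB1 T hβ hn (h 0)
  · rw [hcast] at h
    exact caseLargeB1 T hβ hn hdj h
  · rw [hcast] at h
    exact caseTwoB1 T hβ hn hd hc h

end Pool.Agent.H78Y
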