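import Pool.Agent.Lib.H78Y.D0
import Pool.Agent.Lib.H78W.W18

set_option autoImplicit false

/-!
H78Y: from `PropVWB` to `AlgKWB` (the proofs of H78W/W18.lean with a factor `β`).
-/

open MvPolynomial

namespace Pool.Agent.H78Y

open Pool.Agent.H89T Pool.Agent.H67T Pool.Agent.H53U Pool.Agent.H78M Pool.Agent.H78W

variable {β n c k q : ℕ} {d : Fin c → ℕ}

/-- The proof of `H78W.propE0W_of_propVW` with the factor `β`. -/
theorem propE0WB_of_propVWB (h : PropVWB β n k q d) : PropE0WB β n k q d := by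
  obtain ⟨m, a0, s, μ, hineq, hl⟩ := h
  refine ⟨m, a0, s, μ, hineq, fun l => ?_⟩
  obtain ⟨r, P, Q, hr, hP, hQ, hPQ, a, x, hU, hdet, hlin⟩ := hl l
  obtain ⟨ζ, hζ⟩ := exists_points _ hlin
  refine ⟨r, fun t => trK k x (P t), fun t => trK k x (Q t), ∑ b, l b * x b, hr,
    fun i => trK_biDegK x (hP i), fun i => trK_biDegK x (hQ i), fun i => ?_,
    tra (fun b => - x b) a, fun t p => eval (ζ t) (H53V.rs k Finset.univ (tra (fun b => - x b) a) p),
    fun t b => ?_, fun t => ?_, hdet, ?_⟩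
  · have h1 := hPQ i
    rw [← IIK_kJ] at h1
    have h2 := trK_mem x h1
    rw [map_sub, map_mul, map_pow, trK_linK] at h2
    exact h2
  · show eval (ζ t) (H53V.rs k Finset.univ (tra (fun b => - x b) a) (b, 0)) = 0
    rw [rs_zero, map_zero]
  · have hU0 : ∀ j, U0 (tra (fun b => - x b) a) 0 j = 0 := by
      intro j
      have h1 := U0_tra (fun b => - x b) a x j
      have h2 : (fun b => x b + - x b) = (0 : Fin (n + c) → ℂ) := by
        funext b
        exact add_neg_cancel (x b)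
      rw [h2, hU j] at h1
      exact h1
    intro j i hi
    unfold kJ at hi
    split_ifs at hi with hj
    · have h1 := congrArg (eval (ζ t)) (uu_rs Finset.univ (tra (fun b => - x b) a)
        (fun j _ => hU0 j) hj hi)
      rw [hom_uu, map_zero] at h1
      simp only [eval_C] at h1
      exact h1
    · exact absurd (Finset.mem_univ j) hj
  · have hmat : (Matrix.of fun t s' => evK (tra (fun b => - x b) a)
        (fun p => eval (ζ s') (H53V.rs k Finset.univ (tra (fun b => - x b) a) p)) (trK k x (P t))) =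
        Matrix.of fun t s' => eval (ζ s') (H53V.ResX k Finset.univ a x (map (eval a) (P t))) := by
      ext t s'
      rw [Matrix.of_apply, Matrix.of_apply, evK_trK, tra_tra]
      unfold evK H53V.ResX
      rw [aeval_def, eval₂_map, eval₂_comp_left]
      have h1 : (eval (ζ s') : MvPolynomial (H53V.FZ n k Finset.univ) ℂ →+* ℂ).comp
          ((algebraMap ℂ (MvPolynomial (H53V.FZ n k Finset.univ) ℂ)).comp (eval a)) = eval a := by
        refine RingHom.ext fun z => ?_
        rw [RingHom.comp_apply, RingHom.comp_apply, algebraMap_eq, eval_C]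
      rw [h1]
      refine congrArg (fun g => eval₂ (eval a) g (P t)) (funext fun p => ?_)
      rw [Function.comp_apply, map_add]
      split_ifs with hp
      · rw [eval_C, add_comm]
      · rw [map_zero, zero_add]
    rw [hmat]
    exact hζ

/-- The proof of `H78W.algKW_of_propE0W` with the factor `β`. -/
theorem algKWB_of_propE0WB (hk : 1 ≤ k) (hd : ∀ j, 2 ≤ d j) (h : PropE0WB β n k q d) :
    AlgKWB β n k q d := by
  classical
  obtain ⟨m, a0, s, μ, hs, h⟩ := h
  refine ⟨a0 + 2 * m + 7 * k * μ, s, hs, fun l => ?_⟩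
  obtain ⟨ρ, P, Q, y, hρ, hP, hQ, hrel, a2, ξ2, h20, h2V, h2M, h2det⟩ := h l
  obtain ⟨Θ, hΘ1, hΘ2⟩ := exists_thetaK P (fun s => fibY Finset.univ (ξ2 s))
  refine ⟨Θ, ⟨a2, ?_, hΘ2 a2 h2M fun W hW => ?_⟩, fun a ha0 hΘ ξ hξ0 hQND hξV => ?_⟩
  · intro j
    have hpos : 0 < ρ := lt_of_le_of_lt (Nat.zero_le _) hρ
    have h1 := h2V ⟨0, hpos⟩ j 0 (Nat.zero_le _)
    rw [uu_zero] at h1
    have h3 : (fun b => ξ2 ⟨0, hpos⟩ (b, 0)) = 0 := _root_.funext (h20 _)
    rw [h3] at h1
    exact h1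
  · have h1 : ∀ s, fibJ W (fibY Finset.univ (ξ2 s)) = ξ2 s :=
      fun s => fibJ_fibY hW (h20 s) (h2V s)
    simp only [h1]
    exact h2det
  obtain ⟨hMJ, W, hW, hdet⟩ := hΘ1 a hΘ
  have hξV' : OnV (kJ k Finset.univ) a ξ := fun j i hi => hξV j i (hi.trans (g31_kJ k _ j))
  have hξ1 := QND.exists_ne hk hξ0 hQND
  obtain ⟨p0, hp1, hy⟩ := exists_p0 hk hMJ hξ0 hξV' hξ1
  have hlin : LinearIndependent ℂ fun t => PH Finset.univ a W (P t) := by
    rw [Fintype.linearIndependent_iff]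
    intro g hg
    have h1 : Matrix.vecMul g (Matrix.of fun t s =>
        evK a (fibJ W (fibY Finset.univ (ξ2 s))) (P t)) = 0 := by
      funext s
      have h2 := congrArg (eval (fibY Finset.univ (ξ2 s))) hg
      rw [map_sum, map_zero] at h2
      rw [Matrix.vecMul, dotProduct, Pi.zero_apply, ← h2]
      refine Finset.sum_congr rfl fun t _ => ?_
      rw [smul_eval, eval_PH]
      rfl
    have h3 := Matrix.eq_zero_of_vecMul_eq_zero hdet h1
    exact fun i => congrFun h3 i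
  obtain ⟨cc, τ, hτ, i, hi, hne⟩ := exists_low_mult wZ (fun p => Nat.succ_le_succ (Nat.zero_le _)) p0
    (by rw [wZ, hp1]) (fun t => PH Finset.univ a W (P t)) (fun t => PH_weighted a W (hP t)) hlin
    (by rw [tau_eq]; exact hρ) (fibY Finset.univ ξ) hy
  obtain ⟨z, hz0, hz2, hz⟩ := hQND
  obtain ⟨P', hP'⟩ : ∃ P' : MvPolynomial (JV (n + c) k) (RC (n + c) d),
    P' = ∑ t, C (C (cc t)) * P t := ⟨_, rfl⟩
  obtain ⟨Q', hQ'⟩ : ∃ Q' : MvPolynomial (JV (n + c) k) (RC (n + c) d),
    Q' = ∑ t, C (C (cc t)) * Q t := ⟨_, rfl⟩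
  have hrel' : (H53V.linK k (fun b => C (l b)) + C (C y)) ^ s * P' - Q' ∈
      H53V.IK k Finset.univ (gc (n + c) d) := by
    have h1 : (H53V.linK k (fun b => C (l b)) + C (C y)) ^ s * P' - Q' =
        ∑ t, C (C (cc t)) * ((H53V.linK k (fun b => C (l b)) + C (C y)) ^ s * P t - Q t) := by
      rw [hP', hQ', Finset.mul_sum, ← Finset.sum_sub_distrib]
      refine Finset.sum_congr rfl fun t _ => ?_
      ring
    rw [h1, ← IIK_kJ]
    exact Ideal.sum_mem _ fun t _ => Ideal.mul_mem_left _ _ (hrel t)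
  obtain ⟨φ, G, r, hr, hM, hev⟩ := exists_ne_zero hk hd hW hMJ hξ0 hξV' hz0 hz2 hz P' p0 hp1 hy
    hτ hi (by
      rw [hP', PH_sum]
      exact hne)
  have hpole : ∀ {R : MvPolynomial (JV (n + c) k) (RC (n + c) d)}, BiDegK a0 m R →
      HasPole (a0 + 2 * m + 7 * k * μ) (spW a ((DW φ z G)^[r] (flW (n + c) k d R))) := by
    intro R hR
    refine HasPole.mono ((PoleA_DW hM (PoleA_flW hR) r).spW a) ?_
    exact Nat.add_le_add_left (Nat.mul_le_mul_left _ hr.le) _
  refine ⟨spW a ((DW φ z G)^[r] (flW (n + c) k d P')), spW a ((DW φ z G)^[r] (flW (n + c) k d Q')),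
    y, hpole ?_, hpole ?_, DW_rel hM hrel' r, hev⟩
  · rw [hP']
    exact g31_biDegK cc hP
  · rw [hQ']
    exact g31_biDegK cc hQ

theorem algKWB_of_propVWB (hk : 1 ≤ k) (hd : ∀ j, 2 ≤ d j) (h : PropVWB β n k q d) : AlgKWB β n k q d :=
  algKWB_of_propE0WB hk hd (propE0WB_of_propVWB h)

end Pool.Agent.H78Y
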