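import Pool.Agent.Lib.H78Y.D0
import Pool.Agent.Lib.H53U.Q2

set_option autoImplicit false

/-!
H78Y: from `PropQB` to `AlgQB` (the proof of H53U/Q2.lean with a factor `β`).
-/

open MvPolynomial

namespace Pool.Agent.H78Y

open Pool.Agent.H89T Pool.Agent.H67T Pool.Agent.H53U

/-- The proof of `H53U.algQ_of_propQ` with the factor `β`. -/
theorem algQB_of_propQB {β n q c : ℕ} {d : Fin c → ℕ} (hd : ∀ j, 1 ≤ d j) (h : PropQB β n q d) :
    AlgQB β n q d := by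
  classical
  obtain ⟨m, a0, s, hs0, hl⟩ := h
  refine ⟨a0 + 4 * m, s, hs0, fun l => ?_⟩
  obtain ⟨P₀, hP₀, ⟨Q₀, hQ₀, hrel⟩, a₁, x, v₁, i, h0, h1, hv, hne⟩ := hl l
  have ex : (fun b => (0 : Fin (n + c) → ℂ) b + x b) = x := by
    funext b
    rw [Pi.zero_apply, zero_add]
  -- the base point is moved to `0`
  obtain ⟨P, hPd⟩ : ∃ P, P = trH x P₀ := ⟨_, rfl⟩
  obtain ⟨Q, hQd⟩ : ∃ Q, Q = trH x Q₀ := ⟨_, rfl⟩
  have hP : BiDeg a0 m P := by rw [hPd]; exact trH_biDeg x hP₀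
  have hQ : BiDeg a0 m Q := by rw [hQd]; exact trH_biDeg x hQ₀
  have hPQ : (linL (fun b => C (l b)) + C (C (∑ b, l b * x b))) ^ s * P - Q ∈
      II (gc (n + c) d) := by
    have h2 := trH_mem x hrel
    rw [map_sub, map_mul, map_pow, trH_linL] at h2
    rw [hPd, hQd]
    exact h2
  obtain ⟨a₂, h0', h1', hP'⟩ : ∃ a₂ : CI (n + c) d → ℂ, (∀ j, U0 a₂ 0 j = 0) ∧
      (∀ j, U1 a₂ 0 v₁ j = 0) ∧ evJ a₂ 0 v₁ P ≠ 0 := by
    refine ⟨tra (fun b => - x b) a₁, fun j => ?_, fun j => ?_, ?_⟩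
    · have h2 := U0_tra x (tra (fun b => - x b) a₁) 0 j
      rw [tra_tra, ex, h0] at h2
      exact h2.symm
    · have h2 := U1_tra x (tra (fun b => - x b) a₁) 0 v₁ j
      rw [tra_tra, ex, h1] at h2
      exact h2.symm
    · rw [hPd, evJ_trH, tra_tra, ex]
      exact hne
  obtain ⟨a', y', h0'', hP''⟩ := exists_vv hd h0' h1' hv hP'
  obtain ⟨Θ, hΘ⟩ := exists_theta P y'
  refine ⟨Θ, ⟨a', h0'', by rw [hΘ]; exact hP''⟩, fun a ha0 haΘ v hv hv1 => ?_⟩
  have hw1 := U1_vv a y'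
  have hwP : evJ a 0 (vv a y') P ≠ 0 := by
    rw [← hΘ]
    exact haΘ
  choose sp hsp using fun j => exists_split (N := n + c) (d j)
  obtain ⟨b, hb⟩ : ∃ b, v b ≠ 0 := by
    by_contra hcon
    push Not at hcon
    exact hv (_root_.funext hcon)
  obtain ⟨ν, hνb, hν, he⟩ := exists_nu hP hv1 hw1 hwP hb
  obtain ⟨κ, hκ, hne'⟩ := exists_kappa hd hP a b v hν sp hsp he
  refine ⟨coeff κ (PhiM a b ν sp P), coeff κ (PhiM a b ν sp Q), ∑ b, l b * x b, ?_, ?_, ?_, hne'⟩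
  · exact hasWt_mono (WF_PhiM a b ν sp hsp hP κ) (by omega)
  · exact hasWt_mono (WF_PhiM a b ν sp hsp hQ κ) (by omega)
  · have h2 := PhiM_mem a b ν sp hd hsp hνb hPQ κ
    have h3 : PhiM a b ν sp ((linL (fun b => C (l b)) + C (C (∑ b, l b * x b))) ^ s * P - Q) =
        C ((linL l + C (∑ b, l b * x b)) ^ s) * PhiM a b ν sp P - PhiM a b ν sp Q := by
      rw [map_sub, map_mul, map_pow, map_add]
      congr 2
      have e1 : PhiM a b ν sp (linL fun b => C (l b)) = C (linL l) := by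
        unfold linL
        rw [map_sum, map_sum]
        refine Finset.sum_congr rfl fun b' _ => ?_
        rw [map_mul, map_mul]
        congr 1
        · simp [PhiM, MvPolynomial.algebraMap_eq]
        · simp [PhiM]
      have e2 : PhiM a b ν sp (C (C (∑ b, l b * x b))) = C (C (∑ b, l b * x b)) := by
        simp [PhiM, MvPolynomial.algebraMap_eq]
      rw [e1, e2, ← map_add, ← map_pow]
    rw [h3, coeff_sub, coeff_C_mul] at h2
    exact h2

end Pool.Agent.H78Y
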