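import Pool.Agent.Lib.H53U.K7

set_option autoImplicit false

/-!
H78Y: the quadratic count (the proofs of H53U/K7.lean with a factor `β`).
-/

open Filter Topology

namespace Pool.Agent.H78Y

open Pool.Agent.H53U

/-- The proof of `H53U.large_t` with `α` in place of `4 (q + 1)`. -/
theorem large_tB {n q α : ℕ} (hn : 1 ≤ n) (hq : 1 ≤ q) (e : ℕ → ℕ) (P : ℕ)
    (h1 : ∑ k ∈ Finset.range n, (e k : ℝ) *
      (((α : ℝ) / q) ^ (n - k - 1) / ((n - k - 1).factorial : ℝ) *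
        (1 / ((n + k - 1).factorial : ℝ))) ≤
      2 * (e (n - 1) : ℝ) / ((2 * n - 2).factorial : ℝ))
    (h2 : 2 * α * (2 * n - 1) * e (n - 1) < q * P) (a0 m1 : ℕ) :
    ∃ t : ℕ, m1 ≤ q * t ∧
      (2 * a0 + α * t + 1) * ∑ k ∈ Finset.range n, e k *
        ((3 * a0 + α * t + 1 + (n - k - 1)).choose (n - k - 1) *
          (q * t + (n + k - 1)).choose (n + k - 1)) <
      P * (q * t - m1 + (2 * n - 1)).choose (2 * n - 1) := by
  have hq0 : (0 : ℝ) < q := by exact_mod_cast hq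
  -- the left hand side
  set L : ℝ := (α : ℝ) * ∑ k ∈ Finset.range n, (e k : ℝ) *
      ((α : ℝ) ^ (n - k - 1) / ((n - k - 1).factorial : ℝ) *
        ((q : ℝ) ^ (n + k - 1) / ((n + k - 1).factorial : ℝ))) with hL
  have hleft : Tendsto (fun t : ℕ => ((((2 * a0 + α * t + 1 : ℕ) : ℝ) / t) *
      ∑ k ∈ Finset.range n, (e k : ℝ) *
        ((((3 * a0 + α * t + 1 + (n - k - 1)).choose (n - k - 1) : ℕ) : ℝ) /
            (t : ℝ) ^ (n - k - 1) *
          ((((q * t + (n + k - 1)).choose (n + k - 1) : ℕ) : ℝ) / (t : ℝ) ^ (n + k - 1))))) atTop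
      (𝓝 L) := by
    refine Tendsto.mul ?_ (tendsto_finsetSum _ fun k _ => ?_)
    · have h3 := choose_tendsto α (2 * a0) 1
      simp only [Nat.choose_one_right, pow_one, Nat.factorial_one, Nat.cast_one, div_one] at h3
      refine h3.congr fun t => ?_
      congr 2
      ring
    · refine Tendsto.const_mul _ (Tendsto.mul ?_ ?_)
      · have h3 := choose_tendsto α (3 * a0 + 1) (n - k - 1)
        refine (h3.congr fun t => ?_)
        congr 3
        ring
      · have h3 := choose_tendsto q 0 (n + k - 1)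
        simp only [add_zero] at h3
        exact h3
  have hright : Tendsto (fun t : ℕ => (P : ℝ) *
      ((((q * t - m1 + (2 * n - 1)).choose (2 * n - 1) : ℕ) : ℝ) / (t : ℝ) ^ (2 * n - 1))) atTop
      (𝓝 ((P : ℝ) * ((q : ℝ) ^ (2 * n - 1) / ((2 * n - 1).factorial : ℝ)))) := by
    refine Tendsto.const_mul _ (k2_aux (fun t => q * t - m1) (q : ℝ) (2 * n - 1) ?_)
    have h3 : Tendsto (fun t : ℕ => (q : ℝ) - (m1 : ℝ) / (t : ℝ)) atTop (𝓝 ((q : ℝ) - 0)) :=
      tendsto_const_nhds.sub (tendsto_const_div_atTop_nhds_zero_nat (m1 : ℝ))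
    rw [sub_zero] at h3
    refine h3.congr' ?_
    filter_upwards [eventually_gt_atTop 0, eventually_ge_atTop m1] with t ht ht1
    have ht' : (t : ℝ) ≠ 0 := by exact_mod_cast ht.ne'
    have ht2 : m1 ≤ q * t := ht1.trans (Nat.le_mul_of_pos_left _ hq)
    rw [Nat.cast_sub ht2]
    push_cast
    field_simp
  have hlt : L < (P : ℝ) * ((q : ℝ) ^ (2 * n - 1) / ((2 * n - 1).factorial : ℝ)) := by
    have hf : ((2 * n - 1).factorial : ℝ) = ((2 * n - 1 : ℕ) : ℝ) * ((2 * n - 2).factorial : ℝ) := by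
      have : 2 * n - 1 = (2 * n - 2) + 1 := by omega
      rw [this, Nat.factorial_succ]
      push_cast
      ring
    have hpos : (0 : ℝ) < ((2 * n - 2).factorial : ℝ) := by exact_mod_cast Nat.factorial_pos _
    have hpos1 : (0 : ℝ) < ((2 * n - 1).factorial : ℝ) := by exact_mod_cast Nat.factorial_pos _
    have h3 : L = (α : ℝ) * ((q : ℝ) ^ (2 * n - 2) * ∑ k ∈ Finset.range n, (e k : ℝ) *
        (((α : ℝ) / q) ^ (n - k - 1) / ((n - k - 1).factorial : ℝ) *
          (1 / ((n + k - 1).factorial : ℝ)))) := by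
      rw [hL]
      congr 1
      rw [Finset.mul_sum]
      refine Finset.sum_congr rfl fun k hk => ?_
      rw [Finset.mem_range] at hk
      have h9 : 2 * n - 2 = (n - k - 1) + (n + k - 1) := by omega
      rw [h9, pow_add, div_pow]
      field_simp
    have h4 : L ≤ (α : ℝ) * ((q : ℝ) ^ (2 * n - 2) *
        (2 * (e (n - 1) : ℝ) / ((2 * n - 2).factorial : ℝ))) := by
      rw [h3]
      gcongr
    refine lt_of_le_of_lt h4 ?_
    have h5 : 2 * (α : ℝ) * ((2 * n - 1 : ℕ) : ℝ) * (e (n - 1) : ℝ) < q * P := by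
      exact_mod_cast h2
    have h6 : (q : ℝ) ^ (2 * n - 1) = q * (q : ℝ) ^ (2 * n - 2) := by
      rw [← pow_succ']
      congr 1
      omega
    rw [← mul_div_assoc (P : ℝ), lt_div_iff₀ hpos1, hf, h6]
    have h7 : (α : ℝ) * ((q : ℝ) ^ (2 * n - 2) *
        (2 * (e (n - 1) : ℝ) / ((2 * n - 2).factorial : ℝ))) *
        (((2 * n - 1 : ℕ) : ℝ) * ((2 * n - 2).factorial : ℝ)) =
        (q : ℝ) ^ (2 * n - 2) * (2 * (α : ℝ) * ((2 * n - 1 : ℕ) : ℝ) * (e (n - 1) : ℝ)) := by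
      field_simp
    rw [h7]
    have h8 : (P : ℝ) * (q * (q : ℝ) ^ (2 * n - 2)) = (q : ℝ) ^ (2 * n - 2) * (q * P) := by ring
    rw [h8]
    exact mul_lt_mul_of_pos_left h5 (by positivity)
  have hev := (hleft.eventually_lt hright hlt).and (eventually_ge_atTop (max m1 1))
  obtain ⟨t, ht, htge⟩ := hev.exists
  have ht1 : m1 ≤ t := (le_max_left _ _).trans htge
  have ht0 : 1 ≤ t := (le_max_right _ _).trans htge
  refine ⟨t, ht1.trans (Nat.le_mul_of_pos_left _ hq), ?_⟩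
  have htpos : (0 : ℝ) < t := by exact_mod_cast ht0
  have hp : (0 : ℝ) < (t : ℝ) ^ (2 * n - 1) := pow_pos htpos _
  have h6 := mul_lt_mul_of_pos_right ht hp
  have h7 : ((((2 * a0 + α * t + 1 : ℕ) : ℝ) / t) *
      ∑ k ∈ Finset.range n, (e k : ℝ) *
        ((((3 * a0 + α * t + 1 + (n - k - 1)).choose (n - k - 1) : ℕ) : ℝ) /
            (t : ℝ) ^ (n - k - 1) *
          ((((q * t + (n + k - 1)).choose (n + k - 1) : ℕ) : ℝ) / (t : ℝ) ^ (n + k - 1)))) *
      (t : ℝ) ^ (2 * n - 1) =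
      (((2 * a0 + α * t + 1) * ∑ k ∈ Finset.range n, e k *
        ((3 * a0 + α * t + 1 + (n - k - 1)).choose (n - k - 1) *
          (q * t + (n + k - 1)).choose (n + k - 1)) : ℕ) : ℝ) := by
    push_cast
    have h8 : (∑ k ∈ Finset.range n, (e k : ℝ) *
        ((((3 * a0 + α * t + 1 + (n - k - 1)).choose (n - k - 1) : ℕ) : ℝ) /
            (t : ℝ) ^ (n - k - 1) *
          ((((q * t + (n + k - 1)).choose (n + k - 1) : ℕ) : ℝ) / (t : ℝ) ^ (n + k - 1)))) *
        (t : ℝ) ^ (2 * n - 2) = ∑ k ∈ Finset.range n, (e k : ℝ) *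
        ((((3 * a0 + α * t + 1 + (n - k - 1)).choose (n - k - 1) : ℕ) : ℝ) *
          (((q * t + (n + k - 1)).choose (n + k - 1) : ℕ) : ℝ)) := by
      rw [Finset.sum_mul]
      refine Finset.sum_congr rfl fun k hk => ?_
      rw [Finset.mem_range] at hk
      have h9 : 2 * n - 2 = (n - k - 1) + (n + k - 1) := by omega
      rw [h9, pow_add]
      field_simp
    rw [← h8]
    have h10 : (t : ℝ) ^ (2 * n - 1) = t * (t : ℝ) ^ (2 * n - 2) := by
      rw [← pow_succ']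
      congr 1
      omega
    rw [h10]
    field_simp
  have h11 : (P : ℝ) * ((((q * t - m1 + (2 * n - 1)).choose (2 * n - 1) : ℕ) : ℝ) /
      (t : ℝ) ^ (2 * n - 1)) * (t : ℝ) ^ (2 * n - 1) =
      ((P * (q * t - m1 + (2 * n - 1)).choose (2 * n - 1) : ℕ) : ℝ) := by
    push_cast
    field_simp
  rw [h7, h11] at h6
  exact_mod_cast h6

/-- The quadratic count with the factor `β`. -/
theorem countQB {β n c : ℕ} (hβ : 1 ≤ β) (hn : 2 ≤ n) {δ : Fin c → ℕ} (hδ : ∀ j, 1 ≤ δ j)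
    (hS : ∀ K : Finset (Fin c), K.card < n → 16 * n ^ 2 * β ≤ ∑ j ∈ Kᶜ, δ j)
    (a0 m1 : ℕ) :
    ∃ t : ℕ, m1 ≤ 2 * n * t ∧
      (2 * a0 + β * (4 * (2 * n + 1)) * t + 1) * ∑ k ∈ Finset.range n, ek δ Finset.univ k *
        ((3 * a0 + β * (4 * (2 * n + 1)) * t + 1 + (n - k - 1)).choose (n - k - 1) *
          (2 * n * t + (n + k - 1)).choose (n + k - 1)) <
      ek δ Finset.univ n * (2 * n * t - m1 + (2 * n - 1)).choose (2 * n - 1) := by
  have hn1 : 1 ≤ n := by omega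
  have hc : n ≤ c := by
    by_contra hcon
    push Not at hcon
    have h1 := hS Finset.univ (by rw [Finset.card_univ, Fintype.card_fin]; exact hcon)
    rw [Finset.compl_univ, Finset.sum_empty] at h1
    have h2 : 0 < 16 * n ^ 2 * β := by positivity
    omega
  have h1 : ∀ k, k < n →
      16 * n ^ 2 * β * ek δ Finset.univ k ≤ (k + 1) * ek δ Finset.univ (k + 1) := by
    intro k hk
    exact ek_sum δ k (16 * n ^ 2 * β) fun K hK => hS K (by omega)
  have hnr : (0 : ℝ) < n := by exact_mod_cast hn1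
  have hβr : (1 : ℝ) ≤ β := by exact_mod_cast hβ
  refine large_tB (α := β * (4 * (2 * n + 1))) hn1 (by omega) (fun k => ek δ Finset.univ k) _ ?_ ?_ a0 m1
  · refine sum_termsQ hn1 (by positivity) fun k hk => ?_
    have h2 : ((16 * n ^ 2 * β * ek δ Finset.univ k : ℕ) : ℝ) ≤
        (((k + 1) * ek δ Finset.univ (k + 1) : ℕ) : ℝ) := by exact_mod_cast h1 k (by omega)
    push_cast at h2 ⊢
    refine le_trans ?_ h2
    refine mul_le_mul_of_nonneg_right ?_ (Nat.cast_nonneg _)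
    have h3 : (k : ℝ) + 1 ≤ (n : ℝ) - 1 := by
      have : k + 2 ≤ n := by omega
      have h4 : ((k + 2 : ℕ) : ℝ) ≤ n := by exact_mod_cast this
      push_cast at h4
      linarith
    have hk0 : (0 : ℝ) ≤ k := Nat.cast_nonneg k
    have h4 : 2 * ((β : ℝ) * (4 * (2 * (n : ℝ) + 1)) / (2 * n)) = β * (4 * (2 * (n : ℝ) + 1)) / n := by
      field_simp
    rw [h4, div_mul_eq_mul_div, div_mul_eq_mul_div, div_le_iff₀ hnr]
    have h5 : ((k : ℝ) + 1) * ((n : ℝ) + k) ≤ ((n : ℝ) - 1) * (2 * n - 2) :=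
      mul_le_mul h3 (by linarith) (by linarith) (by linarith)
    have h6 : 4 * (2 * (n : ℝ) + 1) * ((k : ℝ) + 1) * ((n : ℝ) + k) ≤
        4 * (2 * (n : ℝ) + 1) * (((n : ℝ) - 1) * (2 * n - 2)) := by
      have h7 := mul_le_mul_of_nonneg_left h5 (show (0 : ℝ) ≤ 4 * (2 * (n : ℝ) + 1) by positivity)
      linarith
    have hn2 : (2 : ℝ) ≤ n := by exact_mod_cast hn
    have h8 : 4 * (2 * (n : ℝ) + 1) * (((n : ℝ) - 1) * (2 * n - 2)) ≤ 16 * (n : ℝ) ^ 2 * n := by
      nlinarith [mul_nonneg (sub_nonneg.2 hn2) (sq_nonneg ((n : ℝ)))]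
    have h9 := mul_le_mul_of_nonneg_left (h6.trans h8) (show (0 : ℝ) ≤ β by linarith)
    refine le_trans (le_of_eq ?_) (h9.trans (le_of_eq ?_))
    · ring
    · ring
  · have h2 := h1 (n - 1) (by omega)
    have hpos := k3_pos hδ (show n - 1 ≤ c by omega)
    obtain ⟨N, rfl⟩ : ∃ N, n = N + 1 := ⟨n - 1, by omega⟩
    rw [Nat.add_sub_cancel] at h2 hpos ⊢
    have h3 : 2 * (N + 1) - 1 = 2 * N + 1 := by omega
    rw [h3]
    have h4 : 2 * (β * (4 * (2 * (N + 1) + 1))) * (2 * N + 1) * ek δ Finset.univ N <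
        2 * (16 * (N + 1) ^ 2 * β * ek δ Finset.univ N) := by
      have h5 : 2 * (16 * (N + 1) ^ 2 * β * ek δ Finset.univ N) =
          2 * (β * (4 * (2 * (N + 1) + 1))) * (2 * N + 1) * ek δ Finset.univ N +
            8 * (β * ek δ Finset.univ N) := by
        ring
      have h6 : 0 < β * ek δ Finset.univ N := Nat.mul_pos hβ hpos
      omega
    refine lt_of_lt_of_le h4 ?_
    calc 2 * (16 * (N + 1) ^ 2 * β * ek δ Finset.univ N) ≤
        2 * ((N + 1) * ek δ Finset.univ (N + 1)) := Nat.mul_le_mul_left _ h2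
      _ = 2 * (N + 1) * ek δ Finset.univ (N + 1) := by ring

end Pool.Agent.H78Y
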