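import Pool.Agent.Lib.H78Y.D0
import Pool.Agent.Lib.H78Y.K2
import Pool.Agent.Lib.H53U.Final3

set_option autoImplicit false

/-!
H78Y: `PropQB` (the proof of H53U/Final3.lean with a factor `β`).
-/

open MvPolynomial

namespace Pool.Agent.H78Y

open Pool.Agent.H89T Pool.Agent.H67T Pool.Agent.H53U

/-- `PropQB` from the quadratic count. -/
theorem propQB {β n c : ℕ} (hβ : 1 ≤ β) (hn : 2 ≤ n) {d : Fin c → ℕ} (hd : ∀ j, 2 ≤ d j)
    (hS : ∀ K : Finset (Fin c), K.card < n → 16 * n ^ 2 * β ≤ ∑ j ∈ Kᶜ, (d j - 1)) :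
    PropQB β n (2 * n) d := by
  classical
  have hn1 : 1 ≤ n := by omega
  obtain ⟨a₁, m₁, hlow⟩ := lowerL hn1 hd
  set a0 := max a₁ (2 * ∑ j, d j) with ha0
  obtain ⟨t, hm, hlt⟩ := countQB hβ hn (δ := fun j => d j - 1) (fun j => by have := hd j; omega) hS
    (β * a0) m₁
  have haβ : a0 ≤ β * a0 := Nat.le_mul_of_pos_left _ hβ
  obtain ⟨μ, hμ, hp⟩ := hlow (2 * n * t) hm
  have hD : 0 < ∏ j, d j := Finset.prod_pos fun j _ => by have := hd j; omega
  obtain ⟨s, hs⟩ : ∃ s, s = 2 * (β * a0) + β * (4 * (2 * n + 1)) * t + 1 := ⟨_, rfl⟩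
  have hcard : s * Ubd n d (a0 + s) (2 * n * t) <
      Fintype.card (Fin (EL n d * (2 * n * t - m₁ + (2 * n - 1)).choose (2 * n - 1))) := by
    rw [Fintype.card_fin, Ubd_eq, EL]
    have e1 : a0 + s ≤ 3 * (β * a0) + β * (4 * (2 * n + 1)) * t + 1 := by rw [hs]; omega
    have h1 := Nat.mul_lt_mul_of_pos_left hlt hD
    have h2 : ∑ k ∈ Finset.range n, ek (fun j => d j - 1) Finset.univ k *
        ((a0 + s + (n - k - 1)).choose (n - k - 1) *
          (2 * n * t + (n + k - 1)).choose (n + k - 1)) ≤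
        ∑ k ∈ Finset.range n, ek (fun j => d j - 1) Finset.univ k *
        ((3 * (β * a0) + β * (4 * (2 * n + 1)) * t + 1 + (n - k - 1)).choose (n - k - 1) *
          (2 * n * t + (n + k - 1)).choose (n + k - 1)) :=
      Finset.sum_le_sum fun k _ => Nat.mul_le_mul_left _ (Nat.mul_le_mul_right _
        (Nat.choose_le_choose _ (by omega)))
    have h3 := Nat.mul_le_mul_left (s * ∏ j, d j) h2
    refine lt_of_eq_of_lt ?_ (lt_of_le_of_lt h3 (lt_of_eq_of_lt ?_ (lt_of_lt_of_eq h1 ?_)))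
    · ring
    · rw [hs]
      ring
    · ring
  refine ⟨2 * n * t, a0, s, ?_, fun l => ?_⟩
  · obtain ⟨N, rfl⟩ : ∃ N, n = N + 1 := ⟨n - 1, by omega⟩
    rw [hs]
    have e1 : 2 * (N + 1) * (2 * (β * a0) + β * (4 * (2 * (N + 1) + 1)) * t + 1) =
        (β * ((2 * (N + 1) + 1) * (a0 + 4 * (2 * (N + 1) * t))) + 1) +
          ((2 * N + 1) * (β * a0) + (2 * N + 1)) := by
      ring
    rw [e1]
    exact Nat.le_add_right _ _
  obtain ⟨p, hp0, Q, hQ1, hQ2⟩ := exPL hn1 (le_max_right a₁ (2 * ∑ j, d j)) μ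
    (fun l ν hν => ⟨((hμ l ν hν).1.trans (le_max_left _ _)), (hμ l ν hν).2⟩) hcard l
  refine ⟨∑ l, C (p l) * map C (μ l), ?_, ⟨Q, hQ1, hQ2⟩, hp p hp0⟩
  intro ν hν
  obtain ⟨i, -, hi⟩ := Finset.mem_biUnion.1 (support_sum hν)
  have h3 : ν ∈ (μ i).support := by
    rw [mem_support_iff, coeff_C_mul, coeff_map] at hi
    rw [mem_support_iff]
    intro h4
    exact hi (by rw [h4, map_zero, mul_zero])
  exact ⟨((hμ i ν h3).1.trans (le_max_left _ _)), (hμ i ν h3).2⟩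

end Pool.Agent.H78Y
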