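import Pool.Agent.Lib.H78Y.D0

set_option autoImplicit false

/-!
H78Y: `AlgQB` is the case `k = 1` of `AlgKB`.
-/

open MvPolynomial

namespace Pool.Agent.H78Y

open Pool.Agent.H89T Pool.Agent.H67T Pool.Agent.H53U

theorem II_le_IK {N c : ℕ} {d : Fin c → ℕ} (a : CI N d → ℂ) :
    (II a : Ideal (MvPolynomial (JV N 1) ℂ)) ≤ H53V.IK 1 Finset.univ a := by
  unfold II
  rw [Ideal.span_le]
  rintro p (⟨j, rfl⟩ | ⟨j, rfl⟩)
  · refine Ideal.subset_span ⟨j, 0, by norm_num, Or.inl rfl, ?_⟩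
    unfold H53V.uK uR
    rw [uu_zero]
    rfl
  · refine Ideal.subset_span ⟨j, 1, le_rfl, Or.inr (Finset.mem_univ j), ?_⟩
    unfold H53V.uK uR
    rw [uu_one _ _ (1 : Fin (1 + 1)) rfl]
    rfl

/-- Jets of order `1`. -/
theorem algKB_of_algQB {β n q c : ℕ} {d : Fin c → ℕ} (h : AlgQB β n q d) : AlgKB β n 1 q d := by
  obtain ⟨M, s, hs, h⟩ := h
  refine ⟨M, s, hs, fun l => ?_⟩
  obtain ⟨Θ, hΘ, h⟩ := h l
  refine ⟨Θ, hΘ, fun a ha0 haΘ ξ hξ0 hξ1 hξV => ?_⟩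
  have hJ : JJ 0 (fun b => ξ (b, 1)) = ξ := by
    funext p
    obtain ⟨b, i⟩ := p
    unfold JJ
    split_ifs with hi
    · have hi' : i = 0 := hi
      rw [hi']
      exact (hξ0 b).symm
    · have hi' : i = 1 := by
        have h0 : (i : ℕ) ≠ 0 := fun h0 => hi (Fin.ext h0)
        have h2 := i.2
        refine Fin.ext ?_
        show (i : ℕ) = 1
        omega
      rw [hi']
  obtain ⟨P, Q, t, hP, hQ, hrel, hne⟩ := h a ha0 haΘ (fun b => ξ (b, 1)) (by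
      obtain ⟨b, hb⟩ := hξ1
      intro h0
      exact hb (congrFun h0 b)) (by
      intro j
      have h1 := hξV j 1 le_rfl
      unfold H53V.uV at h1
      rw [uu_one _ _ (1 : Fin (1 + 1)) rfl] at h1
      have h2 : (fun b => ξ (b, 0)) = (0 : Fin (n + c) → ℂ) := _root_.funext hξ0
      rw [h2] at h1
      exact h1)
  rw [hJ] at hne
  exact ⟨P, Q, t, hP, hQ, II_le_IK a hrel, hne⟩

end Pool.Agent.H78Y
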