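import Pool.Agent.Lib.H78W.K0

set_option autoImplicit false

/-!
H78Y: numerics of the count (the proofs of H78W/K5.lean, K6.lean with a factor `β`).
-/

open Filter Topology

namespace Pool.Agent.H78Y

open Pool.Agent.H53V Pool.Agent.H78N Pool.Agent.H78W

/-- `H78W.hKW_num` with `c ≤ 66 n₀ ^ 2 β`. -/
theorem hKB_num {β n K c : ℕ} {y : ℝ} (hβ : 1 ≤ β) (hn : 2 ≤ n) (hc : 2 * c ≤ 33 * n ^ 2 * β)
    (hy0 : 0 ≤ y) (hy : 2 * Real.log β ≤ 3 * n * y) (hK : 19 + 4 * (Real.log n + y) ≤ K) :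
    Real.log 4 + (Real.log ((((n + c + 1) ^ 2 : ℕ)) : ℝ) + n * Real.log (2 * n)) +
      n * Real.log (((n * K : ℕ) : ℝ) / n) + 2 * n +
      n * Real.log (2 * (n * K : ℕ) * ((n * K : ℕ) + 1)) ≤ ((n * K : ℕ) : ℝ) - n + 1 := by
  have hn2 : (2 : ℝ) ≤ n := by exact_mod_cast hn
  have hn0 : (0 : ℝ) < n := by linarith
  have hL0 : 0 ≤ Real.log n := Real.log_nonneg (by linarith)
  have hβr : (1 : ℝ) ≤ β := by exact_mod_cast hβ
  have hlβ : 0 ≤ Real.log β := Real.log_nonneg hβr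
  have hK14 : (19 : ℝ) ≤ K := by linarith
  have hK0 : (0 : ℝ) < K := by linarith
  have hc0 : (0 : ℝ) ≤ c := Nat.cast_nonneg c
  have hcR : 2 * (c : ℝ) ≤ 33 * (n : ℝ) ^ 2 * β := by exact_mod_cast hc
  have hl2 := Real.log_two_lt_d9
  have hl2' := Real.log_two_gt_d9
  have h4 : Real.log 4 = 2 * Real.log 2 := by
    rw [show (4 : ℝ) = 2 ^ 2 by norm_num, Real.log_pow]
    norm_num
  have h16 : Real.log 16 = 4 * Real.log 2 := by
    rw [show (16 : ℝ) = 2 ^ 4 by norm_num, Real.log_pow]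
    norm_num
  have h17 : Real.log (1725 / 100) ≤ 4 * Real.log 2 + 78125 / 1000000 := by
    have h := Real.log_le_sub_one_of_pos (show (0 : ℝ) < (1725 / 100) / 16 by norm_num)
    rw [Real.log_div (by norm_num) (by norm_num), h16] at h
    norm_num at h ⊢
    linarith
  have h0 : Real.log ((n : ℝ) + c + 1) ≤ Real.log (1725 / 100) + 2 * Real.log n + Real.log β := by
    have h1 : (n : ℝ) + c + 1 ≤ 1725 / 100 * (n : ℝ) ^ 2 * β := by
      have g1 : (n : ℝ) + 1 ≤ 75 / 100 * (n : ℝ) ^ 2 := by nlinarith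
      have g2 : 75 / 100 * (n : ℝ) ^ 2 * 1 ≤ 75 / 100 * (n : ℝ) ^ 2 * β :=
        mul_le_mul_of_nonneg_left hβr (by positivity)
      linarith
    have h2 := Real.log_le_log (by positivity) h1
    rw [Real.log_mul (by positivity) (by positivity), Real.log_mul (by norm_num) (by positivity),
      Real.log_pow] at h2
    push_cast at h2
    exact h2
  have h1 : Real.log n ≤ Real.log 2 + (n : ℝ) / 2 - 1 := by
    have h := Real.log_le_sub_one_of_pos (show (0 : ℝ) < (n : ℝ) / 2 by positivity)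
    rw [Real.log_div (by positivity) (by norm_num)] at h
    linarith
  have h2 : Real.log K ≤ K / 16 + Real.log 16 - 1 := by
    have h := Real.log_le_sub_one_of_pos (show (0 : ℝ) < K / 16 by positivity)
    rw [Real.log_div (by positivity) (by norm_num)] at h
    linarith
  have hk0 : (0 : ℝ) < n * K := by positivity
  have hk28 : (38 : ℝ) ≤ n * K := by nlinarith
  have h3 : Real.log (n * K + 1) ≤ Real.log (n * K) + 1 / 38 := by
    have h := Real.log_le_sub_one_of_pos (show (0 : ℝ) < (n * K + 1) / (n * K) by positivity)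
    rw [Real.log_div (by positivity) (by positivity)] at h
    have h5 : ((n : ℝ) * K + 1) / (n * K) - 1 = 1 / (n * K) := by field_simp; ring
    have h6 : 1 / ((n : ℝ) * K) ≤ 1 / 38 := one_div_le_one_div_of_le (by norm_num) hk28
    linarith
  have h5 : Real.log ((n : ℝ) * K) = Real.log n + Real.log K := Real.log_mul hn0.ne' hK0.ne'
  have e1 : Real.log (2 * ((n : ℝ) * K) * (n * K + 1))
      = Real.log 2 + Real.log ((n : ℝ) * K) + Real.log (n * K + 1) := by
    rw [Real.log_mul (by positivity) (by positivity), Real.log_mul (by norm_num) hk0.ne']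
  have e2 : Real.log (2 * (n : ℝ)) = Real.log 2 + Real.log n :=
    Real.log_mul (by norm_num) hn0.ne'
  push_cast
  rw [mul_div_cancel_left₀ _ hn0.ne', e1, e2, Real.log_pow]
  have h6 : Real.log 2 + Real.log ((n : ℝ) * K) + Real.log (n * K + 1) + Real.log K + 2 + 4.94
      + (Real.log 2 + Real.log n) + 3 * y ≤ K - 1 := by
    linarith
  have h7 := mul_le_mul_of_nonneg_left h6 hn0.le
  have h8 : Real.log 4 + 2 * Real.log ((n : ℝ) + c + 1) ≤ 4.94 * n + 3 * n * y := by linarith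
  push_cast
  linarith

/-- `H78W.k6_key` with `log N + y` in place of `log N`. -/
theorem k6_keyB {N K y : ℝ} (hN : 1 ≤ N) (hy : 0 ≤ y) (hK1 : 1 ≤ K) (hK : K ≤ 20 + 4 * (Real.log (2 * N) + y)) :
    Real.log (8 * Real.exp 1 * (2 * N * K) ^ 2 * (2 * N * K + 1)) +
      Real.log (2 * (2 * N)) + Real.log (4 * Real.exp 1 * (2 * N * (2 * N * K))) / (2 * N)
      ≤ 21345 / 1000 + 475 / 100 * (Real.log N + y) ∧
    2 * N * (2 * N * K + 1) * (9 * Real.exp 1 ^ 2 / 8) ≤
      2 * N * (2 * N * (23273 / 1000 + 4 * (Real.log N + y))) * (83128 / 10000) := by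
  have hN0 : 0 < N := by linarith
  have he0 : 0 < Real.exp 1 := Real.exp_pos 1
  have he1 := Real.exp_one_lt_d9
  have hl2 := Real.log_two_lt_d9
  have hx0 : 0 ≤ Real.log N := Real.log_nonneg hN
  have hx1 : Real.log N ≤ N - 1 := Real.log_le_sub_one_of_pos hN0
  rw [Real.log_mul (by norm_num) hN0.ne'] at hK
  set x := Real.log N with hx
  obtain ⟨z, hz⟩ : ∃ z : ℝ, z = x + y := ⟨_, rfl⟩
  rw [← hz]
  have hK' : K ≤ 22773 / 1000 + 4 * z := by linarith
  set k := 2 * N * K with hk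
  have hk2 : 2 * N ≤ k := by
    rw [hk]
    nlinarith
  have hk0 : 0 < k := by linarith
  have hz0 : 0 ≤ z := by linarith
  have hk1 : k + 1 ≤ 2 * N * (23273 / 1000 + 4 * z) := by
    have h1 : 2 * N * K ≤ 2 * N * (22773 / 1000 + 4 * z) := mul_le_mul_of_nonneg_left hK' (by linarith)
    have h2 : 2 * N * (23273 / 1000 + 4 * z) = 2 * N * (22773 / 1000 + 4 * z) + N := by ring
    rw [h2]
    linarith
  have hL : Real.log (k + 1) ≤ 3921 / 1000 + x + 25 / 100 * z := by
    have h1 : Real.log (k + 1) ≤ Real.log (2 * N * (23273 / 1000 + 4 * z)) := Real.log_le_log (by linarith) hk1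
    have h2 : Real.log (2 * N * (23273 / 1000 + 4 * z)) = Real.log 2 + x + Real.log (23273 / 1000 + 4 * z) := by
      rw [Real.log_mul (by positivity) (by positivity), Real.log_mul (by norm_num) hN0.ne']
    have h3 : Real.log (23273 / 1000 + 4 * z) = 4 * Real.log 2 + Real.log ((23273 / 1000 + 4 * z) / 16) := by
      rw [Real.log_div (by positivity) (by norm_num)]
      have h4 : Real.log 16 = 4 * Real.log 2 := by
        rw [show (16 : ℝ) = 2 ^ 4 by norm_num, Real.log_pow]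
        norm_num
      rw [h4]
      ring
    have h5 : Real.log ((23273 / 1000 + 4 * z) / 16) ≤ (23273 / 1000 + 4 * z) / 16 - 1 :=
      Real.log_le_sub_one_of_pos (by positivity)
    rw [h2, h3] at h1
    linarith
  have ha : Real.log (8 * Real.exp 1 * k ^ 2 * (k + 1)) ≤ 14843 / 1000 + 3 * x + 75 / 100 * z := by
    have h1 : 8 * Real.exp 1 * k ^ 2 * (k + 1) ≤ 8 * Real.exp 1 * (k + 1) ^ 3 := by
      have h2 : k ^ 2 * (k + 1) ≤ (k + 1) ^ 2 * (k + 1) := by
        have h3 : k ^ 2 ≤ (k + 1) ^ 2 := pow_le_pow_left₀ hk0.le (by linarith) 2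
        exact mul_le_mul_of_nonneg_right h3 (by linarith)
      calc 8 * Real.exp 1 * k ^ 2 * (k + 1) = 8 * Real.exp 1 * (k ^ 2 * (k + 1)) := by ring
        _ ≤ 8 * Real.exp 1 * ((k + 1) ^ 2 * (k + 1)) := mul_le_mul_of_nonneg_left h2 (by positivity)
        _ = 8 * Real.exp 1 * (k + 1) ^ 3 := by ring
    have h4 : Real.log (8 * Real.exp 1 * (k + 1) ^ 3) = 3 * Real.log 2 + 1 + 3 * Real.log (k + 1) := by
      rw [Real.log_mul (by positivity) (by positivity), Real.log_mul (by norm_num) he0.ne', Real.log_exp,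
        Real.log_pow, show (8 : ℝ) = 2 ^ 3 by norm_num, Real.log_pow]
      push_cast
      ring
    have h5 := Real.log_le_log (by positivity) h1
    rw [h4] at h5
    linarith
  have hb : Real.log (4 * Real.exp 1 * (2 * N * k)) / (2 * N) ≤ 5115 / 1000 + 25 / 100 * y := by
    have h1 : 4 * Real.exp 1 * (2 * N * k) ≤ 4 * Real.exp 1 * (k + 1) ^ 2 := by
      have h2 : 2 * N * k ≤ (k + 1) ^ 2 := by nlinarith
      exact mul_le_mul_of_nonneg_left h2 (by positivity)
    have h4 : Real.log (4 * Real.exp 1 * (k + 1) ^ 2) = 2 * Real.log 2 + 1 + 2 * Real.log (k + 1) := by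
      rw [Real.log_mul (by positivity) (by positivity), Real.log_mul (by norm_num) he0.ne', Real.log_exp,
        Real.log_pow, show (4 : ℝ) = 2 ^ 2 by norm_num, Real.log_pow]
      push_cast
      ring
    have h5 := Real.log_le_log (by positivity) h1
    rw [h4] at h5
    rw [div_le_iff₀ (by positivity)]
    have h6 : y * 1 ≤ y * N := mul_le_mul_of_nonneg_left hN hy
    nlinarith
  have hc : Real.log (2 * (2 * N)) ≤ 13863 / 10000 + x := by
    rw [Real.log_mul (by norm_num) (by positivity), Real.log_mul (by norm_num) hN0.ne']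
    linarith
  have hE : 9 * Real.exp 1 ^ 2 / 8 ≤ 83128 / 10000 := by
    have h1 : Real.exp 1 ^ 2 ≤ (27182818286 / 10000000000) ^ 2 :=
      pow_le_pow_left₀ he0.le (by linarith) 2
    have h2 : ((27182818286 : ℝ) / 10000000000) ^ 2 ≤ 73891 / 10000 := by norm_num
    linarith
  refine ⟨by linarith, ?_⟩
  exact mul_le_mul (mul_le_mul_of_nonneg_left hk1 (by linarith)) hE (by positivity) (by positivity)

theorem k6_finB {N K y A C a b : ℝ} (hN : 1 ≤ N) (hy : 0 ≤ y) (hK1 : 1 ≤ K)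
    (hK : K ≤ 20 + 4 * (Real.log (2 * N) + y))
    (hA : 0 ≤ A) (ha : 101 / 100 * (2 + A * (21345 / 1000)) ≤ a)
    (hb : 101 / 100 * (A * (475 / 100)) ≤ b) (ha0 : 0 ≤ a) (hb0 : 0 ≤ b)
    (hC : ∀ x : ℝ, 0 ≤ x →
      (a + b * x) * ((23273 / 1000 + 4 * x) * (332512 / 10000)) < C * (6 + x) ^ 2) :
    101 / 100 * (2 + A * (Real.log (8 * Real.exp 1 * (2 * N * K) ^ 2 * (2 * N * K + 1)) +
      Real.log (2 * (2 * N)) + Real.log (4 * Real.exp 1 * (2 * N * (2 * N * K))) / (2 * N))) *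
      (2 * N * (2 * N * K + 1) * (9 * Real.exp 1 ^ 2 / 8)) < C * N ^ 2 * (6 + (Real.log N + y)) ^ 2 := by
  obtain ⟨h1, h2⟩ := k6_keyB hN hy hK1 hK
  have hN0 : 0 < N := by linarith
  have hx0 : 0 ≤ Real.log N + y := add_nonneg (Real.log_nonneg hN) hy
  set x := Real.log N + y with hx
  set M := Real.log (8 * Real.exp 1 * (2 * N * K) ^ 2 * (2 * N * K + 1)) +
      Real.log (2 * (2 * N)) + Real.log (4 * Real.exp 1 * (2 * N * (2 * N * K))) / (2 * N) with hM
  have hu : 101 / 100 * (2 + A * M) ≤ a + b * x := by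
    have h3 := mul_le_mul_of_nonneg_left h1 hA
    have h4 := mul_le_mul_of_nonneg_right hb hx0
    nlinarith
  have hv0 : 0 ≤ 2 * N * (2 * N * K + 1) * (9 * Real.exp 1 ^ 2 / 8) := by positivity
  calc 101 / 100 * (2 + A * M) * (2 * N * (2 * N * K + 1) * (9 * Real.exp 1 ^ 2 / 8))
      ≤ (a + b * x) * (2 * N * (2 * N * (23273 / 1000 + 4 * x)) * (83128 / 10000)) :=
        mul_le_mul hu h2 hv0 (by positivity)
    _ = N ^ 2 * ((a + b * x) * ((23273 / 1000 + 4 * x) * (332512 / 10000))) := by ring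
    _ < N ^ 2 * (C * (6 + x) ^ 2) := mul_lt_mul_of_pos_left (hC x hx0) (by positivity)
    _ = C * N ^ 2 * (6 + x) ^ 2 := by ring

theorem finWB7 {N K y : ℝ} (hN : 1 ≤ N) (hy : 0 ≤ y) (hK1 : 1 ≤ K)
    (hK : K ≤ 20 + 4 * (Real.log (2 * N) + y)) :
    101 / 100 * (2 + 28 / 3 * (Real.log (8 * Real.exp 1 * (2 * N * K) ^ 2 * (2 * N * K + 1)) +
      Real.log (2 * (2 * N)) + Real.log (4 * Real.exp 1 * (2 * N * (2 * N * K))) / (2 * N))) *
      (2 * N * (2 * N * K + 1) * (9 * Real.exp 1 ^ 2 / 8)) < 6000 * N ^ 2 * (6 + (Real.log N + y)) ^ 2 := by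
  refine k6_finB (A := 28 / 3) (a := 2033 / 10) (b := 4478 / 100) hN hy hK1 hK (by norm_num) (by norm_num)
    (by norm_num) (by norm_num) (by norm_num) ?_
  intro x hx
  nlinarith [mul_nonneg hx hx]

theorem finWB2 {N K y : ℝ} (hN : 1 ≤ N) (hy : 0 ≤ y) (hK1 : 1 ≤ K)
    (hK : K ≤ 20 + 4 * (Real.log (2 * N) + y)) :
    101 / 100 * (2 + 8 / 3 * (Real.log (8 * Real.exp 1 * (2 * N * K) ^ 2 * (2 * N * K + 1)) +
      Real.log (2 * (2 * N)) + Real.log (4 * Real.exp 1 * (2 * N * (2 * N * K))) / (2 * N))) *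
      (2 * N * (2 * N * K + 1) * (9 * Real.exp 1 ^ 2 / 8)) < 1750 * N ^ 2 * (6 + (Real.log N + y)) ^ 2 := by
  refine k6_finB (A := 8 / 3) (a := 5951 / 100) (b := 128 / 10) hN hy hK1 hK (by norm_num) (by norm_num)
    (by norm_num) (by norm_num) (by norm_num) ?_
  intro x hx
  nlinarith [mul_nonneg hx hx]

end Pool.Agent.H78Y
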