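import Pool.Agent.Lib.H78Y.K1
import Pool.Agent.Lib.H78Y.K4
import Pool.Agent.Lib.H78W.K8

set_option autoImplicit false

/-!
H78Y: the main theorem of the count (the proofs of H78W/K7.lean, K8.lean with a factor `β`).
-/

open Filter Topology

namespace Pool.Agent.H78Y

open Pool.Agent.H53V Pool.Agent.H78N Pool.Agent.H78W

/-- The proof of `H78W.countNW_main` with the factor `β`. -/
theorem countNWB_main {β n₀ c D e1 w : ℕ} (hβ : 1 ≤ β) (hn : 1 ≤ n₀) (hw : 1 ≤ w) (hc : c ≤ 66 * n₀ ^ 2 * β)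
    (hL : D ≤ 4 * n₀ * e1)
    (hfin : ∀ K : ℝ, 1 ≤ K → K ≤ 20 + 4 * (Real.log (2 * (n₀ : ℝ)) + Real.log β / (3 * n₀)) →
      (β : ℝ) * (101 / 100 * (2 + 4 * w / 3 * (Real.log (8 * Real.exp 1 * (2 * n₀ * K) ^ 2 * (2 * n₀ * K + 1)) +
        Real.log (2 * (2 * n₀)) +
          Real.log (4 * Real.exp 1 * (2 * n₀ * (2 * n₀ * K))) / (2 * n₀))) *
      (2 * n₀ * (2 * n₀ * K + 1) * (9 * Real.exp 1 ^ 2 / 8))) < D) :
    CountNWB β (2 * n₀) (kB β n₀) D e1 ((2 * n₀ + c + 1) ^ 2) w 100 := by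
  obtain ⟨K, hKdef⟩ : ∃ K : ℕ, K = KB β n₀ := ⟨_, rfl⟩
  have hkW : kB β n₀ = 2 * n₀ * K := by rw [hKdef]; rfl
  rw [hkW]
  have hβr : (1 : ℝ) ≤ β := by exact_mod_cast hβ
  have hlβ : 0 ≤ Real.log β := Real.log_nonneg hβr
  have hn₀r : (1 : ℝ) ≤ n₀ := by exact_mod_cast hn
  obtain ⟨y, hyd⟩ : ∃ y : ℝ, y = Real.log β / (3 * n₀) := ⟨_, rfl⟩
  have hy0 : 0 ≤ y := by rw [hyd]; positivity
  have hyn : 2 * Real.log β ≤ 3 * ((2 * n₀ : ℕ) : ℝ) * y := by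
    rw [hyd]
    push_cast
    refine le_of_eq ?_
    field_simp
  have hKl' : 19 + 4 * (Real.log ((2 * n₀ : ℕ) : ℝ) + y) ≤ K := by
    rw [hKdef, hyd]
    exact Nat.le_ceil _
  have hlogn' : 0 ≤ Real.log ((2 * n₀ : ℕ) : ℝ) :=
    Real.log_nonneg (by exact_mod_cast (show 1 ≤ 2 * n₀ by omega))
  have hKu' : (K : ℝ) ≤ 20 + 4 * (Real.log ((2 * n₀ : ℕ) : ℝ) + y) := by
    have h1 := Nat.ceil_lt_add_one (a := 19 + 4 * (Real.log ((2 * n₀ : ℕ) : ℝ) + y)) (by linarith)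
    have h2 : (KB β n₀ : ℝ) < 19 + 4 * (Real.log ((2 * n₀ : ℕ) : ℝ) + y) + 1 := by
      unfold KB
      rw [← hyd]
      exact h1
    rw [← hKdef] at h2
    linarith
  have hF := hfin K (by linarith) (by rw [← hyd]; push_cast at hKu'; exact hKu')
  obtain ⟨n, hn'⟩ : ∃ n, n = 2 * n₀ := ⟨_, rfl⟩
  have hnc : (2 : ℝ) * (n₀ : ℝ) = (n : ℝ) := by
    rw [hn']
    push_cast
    ring
  have hcn : 2 * c ≤ 33 * n ^ 2 * β := by
    have e1 : 33 * n ^ 2 * β = 2 * (66 * n₀ ^ 2 * β) := by rw [hn']; ring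
    rw [e1]
    omega
  have hLn : D ≤ 2 * n * e1 := by
    have : 2 * n * e1 = 4 * n₀ * e1 := by rw [hn']; ring
    rw [this]
    exact hL
  rw [← hn'] at hKl' hKu' hlogn' hyn ⊢
  rw [hnc] at hF
  have hn2 : 2 ≤ n := by omega
  have hnR : (2 : ℝ) ≤ n := by exact_mod_cast hn2
  have hK19 : 19 ≤ K := by
    have h1 : (19 : ℝ) ≤ K := by linarith
    exact_mod_cast h1
  have hKn := hKB_num (n := n) (K := K) (c := c) (y := y) hβ hn2 hcn hy0 hyn hKl'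
  obtain ⟨k, hk⟩ : ∃ k, k = n * K := ⟨_, rfl⟩
  have hkc : (n : ℝ) * (K : ℝ) = (k : ℝ) := by
    rw [hk]
    push_cast
    ring
  rw [← hk] at hKn ⊢
  rw [hkc] at hF
  have hk9 : 9 * n ≤ k := by
    rw [hk, mul_comm 9 n]
    exact Nat.mul_le_mul_left n (by omega)
  have hnk : n ≤ k := by omega
  have hk1 : 1 ≤ k := by omega
  have hkR : (18 : ℝ) ≤ k := by exact_mod_cast (show 18 ≤ k by omega)
  have hE : (1 : ℝ) ≤ Real.exp 1 := Real.one_le_exp (by norm_num)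
  have hn0 : (0 : ℝ) < n := by linarith
  have hk0 : (0 : ℝ) < k := by linarith
  have hw0 : (0 : ℝ) ≤ w := Nat.cast_nonneg w
  have hlA : 0 < Real.log (4 * Real.exp 1 * ((n : ℝ) * k)) := by
    apply Real.log_pos
    nlinarith [mul_pos hn0 hk0]
  have hlB : 0 ≤ Real.log (8 * Real.exp 1 * (k : ℝ) ^ 2 * ((k : ℝ) + 1)) := by
    apply Real.log_nonneg
    have h1 : (1 : ℝ) ≤ (k : ℝ) ^ 2 := one_le_pow₀ (by linarith)
    have h2 : (1 : ℝ) ≤ 8 * Real.exp 1 := by linarith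
    have h3 : (1 : ℝ) ≤ 8 * Real.exp 1 * (k : ℝ) ^ 2 := one_le_mul_of_one_le_of_one_le h2 h1
    exact one_le_mul_of_one_le_of_one_le h3 (by linarith)
  have hlC : 0 ≤ Real.log (2 * (n : ℝ)) := Real.log_nonneg (by linarith)
  obtain ⟨Lb, hLb⟩ : ∃ Lb : ℝ, Lb = Real.log (8 * Real.exp 1 * (k : ℝ) ^ 2 * ((k : ℝ) + 1)) +
      Real.log (2 * (n : ℝ)) := ⟨_, rfl⟩
  have hLb0 : 0 ≤ Lb := by rw [hLb]; linarith
  obtain ⟨zm, hzdef⟩ : ∃ zm : ℝ, zm = (Real.log (4 * Real.exp 1 * ((n : ℝ) * k)) +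
      n * Lb) / (n * k) := ⟨_, rfl⟩
  have hzm : 0 < zm := by
    rw [hzdef]
    have : 0 ≤ n * Lb := mul_nonneg hn0.le hLb0
    positivity
  have hz : (n : ℝ) * k * zm = Real.log (4 * Real.exp 1 * ((n : ℝ) * k)) + n * Lb := by
    rw [hzdef, mul_div_cancel₀ _ (mul_pos hn0 hk0).ne']
  have hkz : (k : ℝ) * zm = Lb + Real.log (4 * Real.exp 1 * ((n : ℝ) * k)) / n := by
    have h1 : (n : ℝ) * (k * zm) = n * (Lb + Real.log (4 * Real.exp 1 * ((n : ℝ) * k)) / n) := by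
      have hdiv : ∀ La Lb : ℝ, (n : ℝ) * (Lb + La / n) = La + n * Lb := fun La Lb => by
        rw [mul_add, mul_div_cancel₀ _ hn0.ne']
        ring
      rw [← mul_assoc, hz, hdiv]
    exact mul_left_cancel₀ hn0.ne' h1
  rw [← hLb, ← hkz] at hF
  obtain ⟨τ, hτdef⟩ : ∃ τ : ℝ, τ = 8 / (9 * Real.exp 1 ^ 2) / ((n : ℝ) * ((k : ℝ) + 1)) := ⟨_, rfl⟩
  have hτ : 0 < τ := by
    rw [hτdef]
    positivity
  have hinv : τ * ((n : ℝ) * ((k : ℝ) + 1) * (9 * Real.exp 1 ^ 2 / 8)) = 1 := by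
    rw [hτdef]
    field_simp
  have hD1 : 1 ≤ (n : ℝ) * ((k : ℝ) + 1) * (9 * Real.exp 1 ^ 2 / 8) := by
    have h1 : (1 : ℝ) ≤ Real.exp 1 ^ 2 := one_le_pow₀ hE
    have h2 : (1 : ℝ) ≤ 9 * Real.exp 1 ^ 2 / 8 := by linarith
    have h3 : (1 : ℝ) ≤ (n : ℝ) * ((k : ℝ) + 1) := by nlinarith
    exact one_le_mul_of_one_le_of_one_le h3 h2
  have hτ1 : τ ≤ 1 := by
    calc τ = τ * 1 := (mul_one _).symm
      _ ≤ τ * ((n : ℝ) * ((k : ℝ) + 1) * (9 * Real.exp 1 ^ 2 / 8)) := mul_le_mul_of_nonneg_left hD1 hτ.le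
      _ = 1 := hinv
  have hkzp : 0 < (k : ℝ) * zm := mul_pos hk0 hzm
  have hG0 : 0 < (β : ℝ) * (101 / 100 * (2 + 4 * w / 3 * ((k : ℝ) * zm))) := by positivity
  have hgap : (β : ℝ) * (101 / 100 * (2 + 4 * w / 3 * ((k : ℝ) * zm))) < τ * D := by
    have h1 := mul_lt_mul_of_pos_left hF hτ
    have h2 : τ * ((β : ℝ) * (101 / 100 * (2 + 4 * w / 3 * ((k : ℝ) * zm)) *
        ((n : ℝ) * ((k : ℝ) + 1) * (9 * Real.exp 1 ^ 2 / 8)))) =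
        (β : ℝ) * (101 / 100 * (2 + 4 * w / 3 * ((k : ℝ) * zm))) := by
      calc _ = (β : ℝ) * (101 / 100 * (2 + 4 * w / 3 * ((k : ℝ) * zm))) *
          (τ * ((n : ℝ) * ((k : ℝ) + 1) * (9 * Real.exp 1 ^ 2 / 8))) := by ring
        _ = _ := by rw [hinv, mul_one]
    rwa [h2] at h1
  have hD : 1 ≤ D := by
    have h1 : 0 < (D : ℝ) := lt_of_le_of_lt (by positivity) hF
    exact_mod_cast h1
  obtain ⟨σ, hσ1, hσ2⟩ := exists_between hgap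
  have hσ : 0 < σ := by linarith
  have hB1 : 1 ≤ (n + c + 1) ^ 2 := Nat.one_le_pow _ _ (by omega)
  have hBR : (1 : ℝ) ≤ (((n + c + 1) ^ 2 : ℕ) : ℝ) := by exact_mod_cast hB1
  have hL1 : (1 : ℝ) ≤ 2 * (n : ℝ) := by linarith
  have hLR : (D : ℝ) ≤ 2 * (n : ℝ) * e1 := by exact_mod_cast hLn
  let p0 : Fin n × Fin k := (⟨0, by omega⟩, ⟨0, by omega⟩)
  have hI := hIW_of (n := n) (k := k) (L := 2 * (n : ℝ)) (by omega) hk1 hL1 p0 rfl (zm := zm)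
    (by rw [hz, hLb])
  have hII := hIIW_of (n := n) (k := k) (B := (((n + c + 1) ^ 2 : ℕ) : ℝ)) (L := 2 * (n : ℝ))
    hn2 hk9 hBR hL1 (τ := τ) hτdef hKn
  have hmain := hmainW_of (n := n) (k := k) (D := D) (e1 := e1) (B := (n + c + 1) ^ 2)
    (L := 2 * (n : ℝ)) hn2 hnk hD hB1 hL1 hLR p0 hσ hτ hσ2 hτ1 hI hII
  refine countNWB_of_lim (β := β) (n := n) (k := k) (D := D) (e1 := e1) (w := w) (q := 100) hn2 hnk p0
    hσ hτ hzm hσ2 ?_ hmain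
  push_cast
  linarith

theorem countNWB_7 {β n₀ c D e1 : ℕ} (hβ : 1 ≤ β) (hn : 1 ≤ n₀) (hc : c ≤ 66 * n₀ ^ 2 * β)
    (hL : D ≤ 4 * n₀ * e1) (hD : 6000 * β * (n₀ : ℝ) ^ 2 * LB β n₀ ^ 2 ≤ D) :
    CountNWB β (2 * n₀) (kB β n₀) D e1 ((2 * n₀ + c + 1) ^ 2) 7 100 := by
  have hβr : (1 : ℝ) ≤ β := by exact_mod_cast hβ
  have hlβ : 0 ≤ Real.log β := Real.log_nonneg hβr
  have hn₀r : (1 : ℝ) ≤ n₀ := by exact_mod_cast hn
  have hy0 : 0 ≤ Real.log β / (3 * n₀) := by positivity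
  refine countNWB_main hβ hn (by norm_num) hc hL (fun K h1 h2 => ?_)
  have h3 := finWB7 (N := (n₀ : ℝ)) hn₀r hy0 h1 h2
  have e : (4 : ℝ) * ((7 : ℕ) : ℝ) / 3 = 28 / 3 := by norm_num
  rw [e]
  have h4 := mul_lt_mul_of_pos_left h3 (show (0 : ℝ) < β by linarith)
  refine lt_of_lt_of_le h4 (le_trans (le_of_eq ?_) hD)
  unfold LB
  ring

theorem countNWB_2 {β n₀ c D e1 : ℕ} (hβ : 1 ≤ β) (hn : 1 ≤ n₀) (hc : c ≤ 66 * n₀ ^ 2 * β)
    (hL : D ≤ 4 * n₀ * e1) (hD : 1750 * β * (n₀ : ℝ) ^ 2 * LB β n₀ ^ 2 ≤ D) :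
    CountNWB β (2 * n₀) (kB β n₀) D e1 ((2 * n₀ + c + 1) ^ 2) 2 100 := by
  have hβr : (1 : ℝ) ≤ β := by exact_mod_cast hβ
  have hlβ : 0 ≤ Real.log β := Real.log_nonneg hβr
  have hn₀r : (1 : ℝ) ≤ n₀ := by exact_mod_cast hn
  have hy0 : 0 ≤ Real.log β / (3 * n₀) := by positivity
  refine countNWB_main hβ hn (by norm_num) hc hL (fun K h1 h2 => ?_)
  have h3 := finWB2 (N := (n₀ : ℝ)) hn₀r hy0 h1 h2
  have e : (4 : ℝ) * ((2 : ℕ) : ℝ) / 3 = 8 / 3 := by norm_num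
  rw [e]
  have h4 := mul_lt_mul_of_pos_left h3 (show (0 : ℝ) < β by linarith)
  refine lt_of_lt_of_le h4 (le_trans (le_of_eq ?_) hD)
  unfold LB
  ring

theorem countNWB_final {β n k D e1 B w q : ℕ} (hD : 1 ≤ D) (h : CountNWB β n k D e1 B w q) (A0 : ℕ) :
    ∃ m s t μ : ℕ, s ≤ D * t ∧ β * ((q + 1) * (A0 + 2 * m + w * k * μ)) + 1 ≤ q * s ∧
      s + (n + 2) * D ≤ D * (t + (n + 2)) ∧
      tau (Fin n) k m μ * (A0 + 2 * m * D + n).choose n +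
        B * Pool.Agent.H44K.nbad n k m t * (A0 + s + D * m + n).choose n <
        e1 ^ n * Pool.Agent.H44K.ngoodS n k m (t + (n + 2)) := by
  obtain ⟨m, s, t', μ, h1, h2, h3⟩ := h A0
  have he1 : 0 < D := by omega
  have ht' : n + 2 ≤ t' := by
    have h4 : D * (n + 2) ≤ D * t' := by
      rw [mul_comm D (n + 2)]
      omega
    exact Nat.le_of_mul_le_mul_left h4 he1
  obtain ⟨t, rfl⟩ : ∃ t, t' = t + (n + 2) := ⟨t' - (n + 2), by omega⟩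
  have hs : s ≤ D * t := by
    have h4 : D * (t + (n + 2)) = D * t + (n + 2) * D := by ring
    omega
  refine ⟨m, s, t, μ, hs, h2, h1, ?_⟩
  rw [← badN_eq, ← goodN_eq]
  refine lt_of_le_of_lt ?_ h3
  refine Nat.add_le_add_left ?_ _
  refine Nat.mul_le_mul_right _ (Nat.mul_le_mul_left _ (badN_mono ?_))
  omega

end Pool.Agent.H78Y
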