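import Pool.Agent.Lib.H78Y.E1
import Pool.Agent.Lib.H78Y.K5
import Pool.Agent.Lib.H78W.F1

set_option autoImplicit false

/-!
H78Y: from the existence theorem and the count to `PropVWB` and `PropVB` (the proofs of H78W/F1.lean).
-/

open MvPolynomial

namespace Pool.Agent.H78Y

open Pool.Agent.H89T Pool.Agent.H67T Pool.Agent.H53U Pool.Agent.H78M Pool.Agent.H78W

/-- The proof of `H78W.propVW_of_dimV` with the factor `β`. -/
theorem propVWB_of_dimV {β n k q c : ℕ} (hn : 1 ≤ n) {d : Fin c → ℕ} (hd : ∀ j, 1 ≤ d j) :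
    ∃ A₀ : ℕ, ∀ a0 ≥ A₀, ∀ m s μ R : ℕ,
      H53V.tau (H53V.FrI n (Finset.univ : Finset (Fin c))) k m μ *
        ((∏ j, d j) * (a0 + 2 * m * (∑ j ∈ (Finset.univ : Finset (Fin c)), (d j - 1)) + n).choose n) < R →
      β * ((q + 1) * (a0 + 2 * m + 7 * k * μ)) + 1 ≤ q * s →
      (∀ l, H53V.DimV n k Finset.univ d m a0 s R l) → PropVWB β n k q d := by
  obtain ⟨A₀, hA₀, hH⟩ := H53V.hilb_gen (k := k) hn (Finset.univ : Finset (Fin c)) hd
  refine ⟨A₀, fun a0 ha0 m s μ R hR hq hD => ?_⟩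
  refine ⟨m, a0, s, μ, hq, fun l => ?_⟩
  have hU := (hH (a0 + 2 * m * ∑ j ∈ (Finset.univ : Finset (Fin c)), (d j - 1)) (by omega) 0).2.2
  obtain ⟨ι, P, Q, hι, hP, hQ, hrel, hli⟩ := H53V.exists_over_K Finset.univ hA₀ ha0 hU hR l (hD l)
  have hcl := fun i => H53V.clear_rel Finset.univ (P i) (Q i) (hP i) (hQ i) l (hrel i)
  choose ρ P' Q' hρ hP' hQ' hmap hrel' using hcl
  refine ⟨H53V.tau (H53V.FrI n Finset.univ) k m μ + 1, P', Q', Nat.lt_succ_self _, hP', hQ', hrel', ?_⟩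
  refine H53V.complex_point Finset.univ hd P' ?_
  -- the generic coefficients
  have hg : (fun p => ι (H53V.gK (n + c) d p)) = H53V.g1K (n + c) d := by
    funext p
    have h1 := hι (gc (n + c) d p)
    have h2 : H53V.phi1 (n + c) d (gc (n + c) d p) = H53V.g1 (n + c) d p := by
      unfold H53V.phi1 gc
      exact aeval_X _ _
    rw [h2] at h1
    exact h1
  rw [hg] at hli
  have hcomp : ι.comp (algebraMap (RC (n + c) d) (H53V.KF (n + c) d)) =
      (algebraMap (H53V.R1 (n + c) d) (H53V.K1 (n + c) d)).comp (H53V.phi1 (n + c) d) :=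
    RingHom.ext hι
  have hmapι : ∀ i, map ((algebraMap (H53V.R1 (n + c) d) (H53V.K1 (n + c) d)).comp (H53V.phi1 (n + c) d)) (P' i) =
      C (ι (algebraMap (RC (n + c) d) (H53V.KF (n + c) d) (ρ i))) * map ι (P i) := by
    intro i
    rw [← hcomp, ← MvPolynomial.map_map, hmap i, map_mul, map_C]
  have hne : ∀ i, ι (algebraMap (RC (n + c) d) (H53V.KF (n + c) d) (ρ i)) ≠ 0 := by
    intro i h0
    have h1 : algebraMap (RC (n + c) d) (H53V.KF (n + c) d) (ρ i) = 0 :=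
      (map_eq_zero ι).mp h0
    have h2 : ρ i = 0 := by
      have hinj := IsFractionRing.injective (RC (n + c) d) (H53V.KF (n + c) d)
      exact hinj (by rw [h1, map_zero])
    exact hρ i h2
  have hfin := hli.units_smul (fun i => Units.mk0 _ (hne i))
  have heq : (fun i => H53V.ResX k Finset.univ (H53V.g1K (n + c) d) (H53V.x1K (n + c) d)
        (map ((algebraMap (H53V.R1 (n + c) d) (H53V.K1 (n + c) d)).comp (H53V.phi1 (n + c) d)) (P' i))) =
      ((fun i => Units.mk0 _ (hne i)) • fun i => H53V.ResX k Finset.univ (H53V.g1K (n + c) d) (H53V.x1K (n + c) d)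
        (map ι (P i))) := by
    funext i
    rw [hmapι i, map_mul]
    rw [Pi.smul_apply', Units.smul_mk0, smul_eq_C_mul]
    congr 1
    have h3 := (H53V.ResX k Finset.univ (H53V.g1K (n + c) d) (H53V.x1K (n + c) d)).commutes
      (ι (algebraMap (RC (n + c) d) (H53V.KF (n + c) d) (ρ i)))
    rw [algebraMap_eq, algebraMap_eq] at h3
    exact h3
  rw [heq]
  exact hfin

theorem propVWB_of_count {β n k q c : ℕ} (hn : 1 ≤ n) {d : Fin c → ℕ} (hd : ∀ j, 2 ≤ d j) {j1 : Fin c}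
    (hD : DimVW n k d j1)
    (hC : CountNWB β n k (∑ j, (d j - 1)) (d j1 - 1) ((n + c + 1) ^ 2) 7 q) : PropVWB β n k q d := by
  obtain ⟨A₀, hA₀⟩ := hD
  obtain ⟨B₀, hB₀⟩ := propVWB_of_dimV (β := β) (k := k) (q := q) hn (d := d)
    (fun j => (by have := hd j; omega : 1 ≤ d j))
  obtain ⟨hD1, hP⟩ := f1_pos hd j1
  obtain ⟨m, s, t, μ, h1, h2, h3, h4⟩ := countNWB_final hD1 hC (A₀ + B₀)
  have hs : 1 ≤ s := f1_s h2
  obtain ⟨n1, n2⟩ := f1_num hP h4
  refine hB₀ (A₀ + B₀) (by omega) m s μ _ ?_ h2 fun l =>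
    hA₀ (A₀ + B₀) (by omega) m s t (t + (n + 2)) _ hs h1 h3 n2 l
  rw [f1_tau]
  exact n1

theorem propVB_of_count {β n k q c : ℕ} (hn : 1 ≤ n) {d : Fin c → ℕ} (hd : ∀ j, 2 ≤ d j) {j1 : Fin c}
    (hD : DimVW n k d j1)
    (hC : CountNWB β n k (∑ j, (d j - 1)) (d j1 - 1) ((n + c + 1) ^ 2) 2 q) :
    PropVB β n k q Finset.univ d := by
  obtain ⟨A₀, hA₀⟩ := hD
  obtain ⟨B₀, hB₀⟩ := propVB_of_dimV (β := β) (k := k) (q := q) hn (Finset.univ : Finset (Fin c)) (d := d)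
    (fun j => (by have := hd j; omega : 1 ≤ d j))
  obtain ⟨hD1, hP⟩ := f1_pos hd j1
  obtain ⟨m, s, t, μ, h1, h2, h3, h4⟩ := countNWB_final hD1 hC (A₀ + B₀)
  have hs : 1 ≤ s := f1_s h2
  obtain ⟨n1, n2⟩ := f1_num hP h4
  refine hB₀ (A₀ + B₀) (by omega) m s μ _ ?_ h2 fun l =>
    hA₀ (A₀ + B₀) (by omega) m s t (t + (n + 2)) _ hs h1 h3 n2 l
  rw [f1_tau]
  exact n1

end Pool.Agent.H78Y
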