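import Pool.Agent.Lib.H78Y.D0
import Pool.Agent.Lib.H53V.KMain

set_option autoImplicit false

/-!
H78Y: the count of H53V (the proofs of H53V/K5.lean and KMain.lean with a factor `β`).
-/

open MvPolynomial Filter Topology

namespace Pool.Agent.H78Y

open Pool.Agent.H89T Pool.Agent.H67T Pool.Agent.H53U Pool.Agent.H53V

/-- The proof of `H53V.k5_main` with the factor `β`. -/
theorem k5_mainB {β n k a Dn W : ℕ} (ha : 1 ≤ a) {F T : ℝ} (hF : 0 < F) (hT : 0 < T) {e : ℕ → ℝ}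
    {E : ℕ → ℕ → ℕ}
    (hu : ∀ r m, (E r m : ℝ) * ((a + r - 1).factorial * F) ≤ e r * ((m : ℝ) + W) ^ (a + r - 1))
    (hl : ∀ m, W ≤ m → e n * ((m : ℝ) - W) ^ (a + n - 1) ≤ (E n m : ℝ) * ((a + n - 1).factorial * F))
    {ta : ℕ → ℕ → ℕ} {μ : ℕ → ℕ} {τ : ℕ → ℝ} {τ₀ κ C : ℝ}
    (h1 : Tendsto τ atTop (𝓝 τ₀))
    (h2 : ∀ m, 1 ≤ m → (ta m (μ m) : ℝ) ≤ τ m * (m : ℝ) ^ (a - 1))
    (h3 : ∀ m, 2 * (k : ℝ) * μ m ≤ κ * m + C) (h4 : (β : ℝ) * (101 / 100 * (2 + κ)) < T)
    (h5 : ∑ r ∈ Finset.range n, T ^ (n - r) / (n - r).factorial *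
        (e r / ((a + r - 1).factorial * F)) + τ₀ * ((2 * (Dn : ℝ)) ^ n / n.factorial) <
      e n / ((a + n - 1).factorial * F)) (a0 : ℕ) :
    ∃ m s μ : ℕ, β * ((100 + 1) * (a0 + 2 * m + 2 * k * μ)) + 1 ≤ 100 * s ∧
      ∑ r ∈ Finset.range n, (a0 + s + (n - r)).choose (n - r) * E r m +
        ta m μ * (a0 + 2 * m * Dn + n).choose n < E n m := by
  have hc : Tendsto (fun m : ℕ => ((⌈T * (m : ℝ)⌉₊ : ℕ) : ℝ) / m) atTop (𝓝 T) :=
    (tendsto_nat_ceil_mul_div_atTop hT.le).comp tendsto_natCast_atTop_atTop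
  have hz : ∀ x : ℝ, Tendsto (fun m : ℕ => x / (m : ℝ)) atTop (𝓝 0) :=
    fun x => tendsto_const_div_atTop_nhds_zero_nat x
  set A : ℕ → ℝ := fun m => ∑ r ∈ Finset.range n,
      ((a0 : ℝ) / m + ((⌈T * (m : ℝ)⌉₊ : ℕ) : ℝ) / m + ((n - r : ℕ) : ℝ) / m) ^ (n - r) /
        (n - r).factorial * (e r * (1 + (W : ℝ) / m) ^ (a + r - 1) / ((a + r - 1).factorial * F)) +
      τ m * (((a0 : ℝ) / m + 2 * (Dn : ℝ) + (n : ℝ) / m) ^ n / n.factorial) with hA
  set B : ℕ → ℝ := fun m => e n * (1 - (W : ℝ) / m) ^ (a + n - 1) / ((a + n - 1).factorial * F) with hB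
  have tA : Tendsto A atTop (𝓝 (∑ r ∈ Finset.range n, T ^ (n - r) / (n - r).factorial *
        (e r / ((a + r - 1).factorial * F)) + τ₀ * ((2 * (Dn : ℝ)) ^ n / n.factorial))) := by
    have t1 : Tendsto A atTop (𝓝 (∑ r ∈ Finset.range n, (0 + T + 0) ^ (n - r) / (n - r).factorial *
        (e r * (1 + 0) ^ (a + r - 1) / ((a + r - 1).factorial * F)) +
          τ₀ * ((0 + 2 * (Dn : ℝ) + 0) ^ n / n.factorial))) := by
      rw [hA]
      refine Tendsto.add (tendsto_finsetSum _ fun r _ => ?_) ?_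
      · refine Tendsto.mul ?_ ?_
        · exact ((((hz a0).add hc).add (hz _)).pow _).div_const _
        · exact ((((hz W).const_add 1).pow _).const_mul _).div_const _
      · refine h1.mul ?_
        exact (((((hz a0).add_const (2 * (Dn : ℝ)))).add (hz n)).pow _).div_const _
    simpa using t1
  have tB : Tendsto B atTop (𝓝 (e n / ((a + n - 1).factorial * F))) := by
    have t1 : Tendsto B atTop (𝓝 (e n * (1 - 0) ^ (a + n - 1) / ((a + n - 1).factorial * F))) := by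
      rw [hB]
      exact ((((hz W).const_sub 1).pow _).const_mul _).div_const _
    simpa using t1
  have ev1 : ∀ᶠ m : ℕ in atTop, A m < B m := tA.eventually_lt tB h5
  have hgap : 0 < 100 * T - 101 * (β * (2 + κ)) := by linarith
  have ev2 : ∀ᶠ m : ℕ in atTop,
      (101 * (β * (a0 + C)) + 1) / (100 * T - 101 * (β * (2 + κ))) ≤ (m : ℝ) :=
    tendsto_natCast_atTop_atTop.eventually_ge_atTop _
  obtain ⟨m, hm1, hm2, hm3, hm4⟩ := (ev1.and (ev2.and ((eventually_ge_atTop 1).and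
    (eventually_ge_atTop W)))).exists
  have hm0 : (0 : ℝ) < m := by exact_mod_cast hm3
  refine ⟨m, ⌈T * (m : ℝ)⌉₊, μ m, ?_, ?_⟩
  · rw [div_le_iff₀ hgap] at hm2
    have h6 := h3 m
    have h7 : T * (m : ℝ) ≤ (⌈T * (m : ℝ)⌉₊ : ℕ) := Nat.le_ceil _
    have h8 : ((β * ((100 + 1) * (a0 + 2 * m + 2 * k * μ m)) + 1 : ℕ) : ℝ) ≤
        ((100 * ⌈T * (m : ℝ)⌉₊ : ℕ) : ℝ) := by
      push_cast
      have h9 := mul_le_mul_of_nonneg_left h6 (Nat.cast_nonneg β : (0 : ℝ) ≤ β)
      linarith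
    exact_mod_cast h8
  · have h8 : ((∑ r ∈ Finset.range n, (a0 + ⌈T * (m : ℝ)⌉₊ + (n - r)).choose (n - r) * E r m +
        ta m (μ m) * (a0 + 2 * m * Dn + n).choose n : ℕ) : ℝ) < ((E n m : ℕ) : ℝ) := by
      have hfac : ∀ j : ℕ, (0 : ℝ) < (j.factorial : ℝ) * F := fun j =>
        mul_pos (by exact_mod_cast j.factorial_pos) hF
      have u1 : ((∑ r ∈ Finset.range n, (a0 + ⌈T * (m : ℝ)⌉₊ + (n - r)).choose (n - r) * E r m +
          ta m (μ m) * (a0 + 2 * m * Dn + n).choose n : ℕ) : ℝ) ≤ (m : ℝ) ^ (a + n - 1) * A m := by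
        rw [hA]
        simp only
        push_cast
        rw [mul_add, Finset.mul_sum]
        refine add_le_add (Finset.sum_le_sum fun r hr => ?_) ?_
        · rw [Finset.mem_range] at hr
          have v1 : ((a0 + ⌈T * (m : ℝ)⌉₊ + (n - r)).choose (n - r) : ℝ) ≤
              ((a0 + ⌈T * (m : ℝ)⌉₊ + (n - r) : ℕ) : ℝ) ^ (n - r) / (n - r).factorial :=
            Nat.choose_le_pow_div _ _
          have v2 : (E r m : ℝ) ≤ e r * ((m : ℝ) + W) ^ (a + r - 1) / ((a + r - 1).factorial * F) := by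
            rw [le_div_iff₀ (hfac _)]
            exact hu r m
          have v3 : ((a0 + ⌈T * (m : ℝ)⌉₊ + (n - r) : ℕ) : ℝ) =
              m * ((a0 : ℝ) / m + ((⌈T * (m : ℝ)⌉₊ : ℕ) : ℝ) / m + ((n - r : ℕ) : ℝ) / m) := by
            push_cast
            field_simp
          have v4 : (m : ℝ) + W = m * (1 + (W : ℝ) / m) := by field_simp
          have v5 : (m : ℝ) ^ (a + n - 1) = (m : ℝ) ^ (n - r) * (m : ℝ) ^ (a + r - 1) := by
            rw [← pow_add]
            congr 1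
            omega
          refine (mul_le_mul v1 v2 (Nat.cast_nonneg _) (by positivity)).trans (le_of_eq ?_)
          rw [v3, v4, v5, mul_pow, mul_pow]
          ring
        · have v1 : ((a0 + 2 * m * Dn + n).choose n : ℝ) ≤
              ((a0 + 2 * m * Dn + n : ℕ) : ℝ) ^ n / n.factorial := Nat.choose_le_pow_div _ _
          have v2 := h2 m hm3
          have v3 : ((a0 + 2 * m * Dn + n : ℕ) : ℝ) =
              m * ((a0 : ℝ) / m + 2 * (Dn : ℝ) + (n : ℝ) / m) := by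
            push_cast
            field_simp
          have v5 : (m : ℝ) ^ (a + n - 1) = (m : ℝ) ^ (a - 1) * (m : ℝ) ^ n := by
            rw [← pow_add]
            congr 1
            omega
          refine (mul_le_mul v2 v1 (Nat.cast_nonneg _) ((Nat.cast_nonneg _).trans v2)).trans (le_of_eq ?_)
          rw [v3, v5, mul_pow]
          ring
      have u2 : (m : ℝ) ^ (a + n - 1) * B m ≤ (E n m : ℝ) := by
        rw [hB]
        simp only
        have v4 : (m : ℝ) - W = m * (1 - (W : ℝ) / m) := by field_simp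
        have v6 := hl m hm4
        rw [v4, mul_pow] at v6
        rw [mul_div_assoc', div_le_iff₀ (hfac _)]
        linarith
      have u3 : (m : ℝ) ^ (a + n - 1) * A m < (m : ℝ) ^ (a + n - 1) * B m :=
        mul_lt_mul_of_pos_left hm1 (by positivity)
      linarith
    exact_mod_cast h8

/-- The inequality `CountVB`, with explicit constants: `n = 2 n₀`, `k = 4 n₀`, `q = 100`. -/
theorem countVB_of_bound {β n₀ c : ℕ} (hβ : 1 ≤ β) (hn : 1 ≤ n₀) (J : Finset (Fin c)) {d : Fin c → ℕ}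
    (hd : ∀ j, 1 ≤ d j)
    (h : 250 * (n₀ : ℝ) ^ 2 * (2 * (n₀ : ℝ) + (c - J.card : ℕ)) * (1 + Real.log n₀) * β ≤
      ∑ j ∈ J, ((d j : ℝ) - 1)) :
    CountVB β (n₀ + n₀) (4 * n₀) 100 J d := by
  classical
  have hn0 : (1 : ℝ) ≤ n₀ := by exact_mod_cast hn
  have hL : 0 ≤ Real.log n₀ := Real.log_nonneg hn0
  obtain ⟨n, hnn⟩ : ∃ n, n = n₀ + n₀ := ⟨_, rfl⟩
  obtain ⟨M, hM⟩ : ∃ M, M = n + (c - J.card) := ⟨_, rfl⟩
  have hcard : Fintype.card (FrI n J) = M := by rw [kmain_card, hM]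
  have hk4 : 4 * n₀ = n + n := by omega
  have hnM : n ≤ M := by omega
  rw [← hnn, hk4]
  have hnr : (n : ℝ) = 2 * n₀ := by rw [hnn]; push_cast; ring
  have hMr : (n : ℝ) ≤ M := by exact_mod_cast hnM
  -- the sum of the `d j - 1`
  obtain ⟨Dn, hDn⟩ : ∃ Dn, Dn = ∑ j ∈ J, (d j - 1) := ⟨_, rfl⟩
  have hDr : (Dn : ℝ) = ∑ j ∈ J, ((d j : ℝ) - 1) := by
    rw [hDn, Nat.cast_sum]
    refine Finset.sum_congr rfl fun j _ => ?_
    rw [Nat.cast_sub (hd j), Nat.cast_one]
  have hβr : (1 : ℝ) ≤ β := by exact_mod_cast hβ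
  have hD1 : 250 * (n₀ : ℝ) ^ 2 * M * (1 + Real.log n₀) * β ≤ Dn := by
    rw [hDr]
    refine le_trans (le_of_eq ?_) h
    rw [hM, hnn]
    push_cast
    ring
  have hM0 : (0 : ℝ) < M := by linarith
  have hD0 : (0 : ℝ) < Dn := lt_of_lt_of_le (by positivity) hD1
  set S : ℝ := Dn * HH n with hS
  have hHH := k3_HH (n := n) (by omega)
  have hl2 : 0 < Real.log 2 := by linarith [Real.log_two_gt_d9]
  have hHpos : 0 < HH n := lt_of_lt_of_le (by positivity) hHH
  have hS0 : 0 < S := mul_pos hD0 hHpos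
  have hSl : (Dn : ℝ) * (Real.log 2 * (1 + 1 / (2 * (n : ℝ)))) ≤ S := mul_le_mul_of_nonneg_left hHH hD0.le
  -- the elementary symmetric functions
  have hee : ∀ r, ee (n + n) J d r = es (J ×ˢ (Finset.univ : Finset (Fin (n + n))))
      (fun p => ((d p.1 - 1 : ℕ) : ℝ) / (((p.2 : ℕ) : ℝ) + 1)) r := fun r => rfl
  have hx0 : ∀ p : Fin c × Fin (n + n), 0 ≤ ((d p.1 - 1 : ℕ) : ℝ) / (((p.2 : ℕ) : ℝ) + 1) := by
    intro p
    positivity
  have he0 : ∀ r, 0 ≤ ee (n + n) J d r := fun r => by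
    rw [hee]
    exact k3_nonneg hx0 r
  have hstep : ∀ r < n, S * ee (n + n) J d r ≤ ((r : ℝ) + 1) * ee (n + n) J d (r + 1) := by
    intro r hr
    rw [hee, hee]
    refine k3_step hx0 fun K _ hK => ?_
    have h1 := k3_compl (n := n) (by omega) J (δ := fun j => ((d j - 1 : ℕ) : ℝ))
      (fun j => Nat.cast_nonneg _) (K := K) (by omega)
    rw [hS, hDn, Nat.cast_sum]
    exact h1
  have hen : S ^ n ≤ n.factorial * ee (n + n) J d n := by
    have h1 := k3_chain hS0.le n hstep n le_rfl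
    have h2 : ee (n + n) J d 0 = 1 := by
      rw [hee]
      unfold es
      rw [Finset.powersetCard_zero, Finset.sum_singleton, Finset.prod_empty]
    rw [Nat.sub_self, h2] at h1
    simpa using h1
  have hen0 : 0 < ee (n + n) J d n := by
    have h1 : 0 < S ^ n := by positivity
    have h2 : 0 < (n.factorial : ℝ) * ee (n + n) J d n := h1.trans_le hen
    exact (pos_iff_pos_of_mul_pos h2).1 (by exact_mod_cast n.factorial_pos)
  -- constants
  set T : ℝ := 1386 / 100 * (1 + Real.log n₀) * β with hT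
  have hT0 : 0 < T := by rw [hT]; positivity
  obtain ⟨a, ha⟩ : ∃ a, a = M * (n + n) := ⟨_, rfl⟩
  have ha1 : 1 ≤ a := by
    rw [ha]
    exact Nat.mul_pos (by omega) (by omega)
  have har : (a : ℝ) = 2 * n * M := by rw [ha]; push_cast; ring
  have hF := FF_pos (FrI n J) (n + n)
  set F : ℝ := FF (FrI n J) (n + n) with hFd
  have hfirst := k6_first (n := n) ha1 hT0.le hS0 hF he0 hstep (x := 64 / 100) (by
    have h1 : (n : ℝ) * T * ((a : ℝ) + n) ≤ 2 * n ^ 2 * M * T * (1 + 1 / (2 * (n : ℝ))) := by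
      have h2 : 2 * (n : ℝ) ^ 2 * M * T * (1 + 1 / (2 * (n : ℝ))) = n * T * (2 * n * M + M) := by
        have : (n : ℝ) ≠ 0 := by linarith
        field_simp
      rw [h2, har]
      refine mul_le_mul_of_nonneg_left (by linarith) (by positivity)
    have h3 : 2 * (n : ℝ) ^ 2 * M * T ≤ 64 / 100 * (Dn * Real.log 2) := by
      have h4 := Real.log_two_gt_d9
      have h5 : 2 * (n : ℝ) ^ 2 * M * T = 11088 / 100 * ((n₀ : ℝ) ^ 2 * M * (1 + Real.log n₀) * β) := by
        rw [hT, hnr]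
        ring
      rw [h5]
      have h6 : 250 * ((n₀ : ℝ) ^ 2 * M * (1 + Real.log n₀) * β) * (6931 / 10000) ≤ Dn * Real.log 2 := by
        refine mul_le_mul ?_ (by linarith) (by norm_num) hD0.le
        linarith
      have h7 : 0 ≤ (n₀ : ℝ) ^ 2 * M * (1 + Real.log n₀) * β := by positivity
      linarith
    have h8 : 0 ≤ 1 + 1 / (2 * (n : ℝ)) := by positivity
    calc (n : ℝ) * T * ((a : ℝ) + n) ≤ 2 * n ^ 2 * M * T * (1 + 1 / (2 * (n : ℝ))) := h1
      _ ≤ 64 / 100 * (Dn * Real.log 2) * (1 + 1 / (2 * (n : ℝ))) := mul_le_mul_of_nonneg_right h3 h8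
      _ = 64 / 100 * (Dn * (Real.log 2 * (1 + 1 / (2 * (n : ℝ))))) := by ring
      _ ≤ 64 / 100 * S := by linarith) (by norm_num)
  have hexp := k6_exp064
  have hfn : (0 : ℝ) < (a + n - 1).factorial := by exact_mod_cast (a + n - 1).factorial_pos
  have hR : 0 < ee (n + n) J d n / ((a + n - 1).factorial * F) := div_pos hen0 (mul_pos hfn hF)
  have hσ : 0 < Fintype.card (FrI n J) := by omega
  have hu := k2_upper J d hσ (k := n + n) (by omega)
  have hl := fun m (hm : WW (FrI n J) (n + n) J ≤ m) => k2_lower J d hσ (k := n + n) (by omega) n hm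
  rw [hcard, ← ha, ← hFd] at hu
  rw [hcard, ← ha, ← hFd] at hl
  unfold CountVB
  rw [← hDn]
  intro a0
  by_cases hn4 : 4 ≤ n₀
  · -- the case of large `n₀`
    obtain ⟨σ0⟩ : Nonempty (FrI n J) := Fintype.card_pos_iff.1 hσ
    obtain ⟨p0, hp0⟩ : ∃ p0 : FrI n J × Fin (n + n), (p0.2 : ℕ) = 0 := ⟨(σ0, ⟨0, by omega⟩), rfl⟩
    set t : ℝ := 439 / 100 + 5 * Real.log n₀ with ht
    have ht0 : 0 < t := by rw [ht]; positivity
    have hkr : (((n + n : ℕ) : ℝ)) = 2 * n := by push_cast; ring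
    have hnpos : (0 : ℝ) < n := by linarith
    have haR : (0 : ℝ) < a := by exact_mod_cast ha1
    have hzm : (a : ℝ) - a * (t / (2 * n)) = a - M * t := by
      rw [har]
      field_simp
    have hT1 : T0 p0 (a : ℝ) (t / (2 * n)) * ((a : ℝ) ^ (a - 1) * F) ≤
        Real.exp (a - M * t) * (4 * ((4 * n₀ : ℕ) : ℝ)) ^ M := by
      have h1 := k4_T0 p0 hp0 (φ := (a : ℝ)) (zm := t / (2 * n)) haR
      rw [hcard, ← ha, ← hFd, hzm] at h1
      rw [hk4]
      exact h1
    have hsec := k6_second (D := (Dn : ℝ)) (S := S) (F := F) (τ₀ := T0 p0 (a : ℝ) (t / (2 * n))) (en := ee (n + n) J d n)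
      hn4 (M := M) (by omega) (a := a) (by rw [ha, hk4]) hD0 hF (by rw [← hnn]; exact hSl)
      (by rw [← hnn]; exact hen) hT1
    rw [← hnn] at hsec
    refine k5_mainB (β := β) (T := T) (κ := 8 / 3 * t) (C := 2 * (2 * n)) (F := F) (W := WW (FrI n J) (n + n) J)
      (μ := fun m => ⌈(4 / 3 * (t / (2 * n))) * (m : ℝ)⌉₊) ha1 hF hT0 hu hl
      (k4_lim p0 (a : ℝ) (t / (2 * n))) ?_ ?_ ?_ ?_ a0
    · intro m hm
      have h1 := k4_Tm p0 (φ := (a : ℝ)) (zm := t / (2 * n)) haR hm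
        (μ := ⌈(4 / 3 * (t / (2 * n))) * (m : ℝ)⌉₊) (by
          have h2 := Nat.le_ceil ((4 / 3 * (t / (2 * n))) * (m : ℝ))
          linarith)
      rw [hcard, ← ha] at h1
      exact h1
    · intro m
      have h2 : ((⌈(4 / 3 * (t / (2 * n))) * (m : ℝ)⌉₊ : ℕ) : ℝ) ≤ (4 / 3 * (t / (2 * n))) * (m : ℝ) + 1 :=
        (Nat.ceil_lt_add_one (by positivity)).le
      rw [hkr]
      have h3 := mul_le_mul_of_nonneg_left h2 (by positivity : (0 : ℝ) ≤ 2 * (2 * (n : ℝ)))
      refine h3.trans (le_of_eq ?_)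
      field_simp
      ring
    · rw [ht, hT]
      have hx1 : 101 / 100 * (2 + 8 / 3 * (439 / 100 + 5 * Real.log n₀)) <
          1386 / 100 * (1 + Real.log n₀) := by linarith
      have hx2 := mul_lt_mul_of_pos_right hx1 (show (0 : ℝ) < β by linarith)
      linarith
    · have h1 : (Real.exp (64 / 100) - 1) * (ee (n + n) J d n / ((a + n - 1).factorial * F)) <
          9 / 10 * (ee (n + n) J d n / ((a + n - 1).factorial * F)) :=
        mul_lt_mul_of_pos_right (by linarith) hR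
      linarith
  · -- the small cases
    refine k5_mainB (β := β) (T := T) (κ := 2 * (2 * n)) (C := 2 * (2 * n)) (F := F) (W := WW (FrI n J) (n + n) J)
      (μ := fun m => m + 1) (τ := fun _ => 0) (τ₀ := 0) ha1 hF hT0 hu hl
      tendsto_const_nhds ?_ ?_ ?_ ?_ a0
    · intro m _
      rw [kmain_tau_zero]
      simp
    · intro m
      push_cast
      linarith
    · rw [hT, hnr]
      suffices hx1 : 101 / 100 * (2 + 2 * (2 * (2 * (n₀ : ℝ)))) < 1386 / 100 * (1 + Real.log n₀) by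
        have hx2 := mul_lt_mul_of_pos_right hx1 (show (0 : ℝ) < β by linarith)
        linarith
      have h3 : n₀ = 1 ∨ n₀ = 2 ∨ n₀ = 3 := by omega
      have hl2g := Real.log_two_gt_d9
      rcases h3 with h3 | h3 | h3
      · rw [h3]
        norm_num
      · rw [h3]
        push_cast
        linarith
      · rw [h3]
        push_cast
        have h4 : 3 * Real.log 2 ≤ 2 * Real.log 3 := by
          have h5 : 3 * Real.log 2 = Real.log (2 ^ 3) := by rw [Real.log_pow]; norm_num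
          have h6 : 2 * Real.log 3 = Real.log (3 ^ 2) := by rw [Real.log_pow]; norm_num
          rw [h5, h6]
          exact Real.log_le_log (by norm_num) (by norm_num)
        linarith
    · have h1 : (Real.exp (64 / 100) - 1) * (ee (n + n) J d n / ((a + n - 1).factorial * F)) <
          9 / 10 * (ee (n + n) J d n / ((a + n - 1).factorial * F)) :=
        mul_lt_mul_of_pos_right (by linarith) hR
      rw [zero_mul, add_zero]
      linarith

end Pool.Agent.H78Y
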