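import Pool.Agent.Lib.H78Y.K1

set_option autoImplicit false

/-!
H78Y: the count for hypersurfaces (the proof of H78N/C17.lean with a factor `β`).
-/

open Filter Topology

namespace Pool.Agent.H78Y

open Pool.Agent.H53V Pool.Agent.H78N Pool.Agent.H78W

/-- The proof of `H78N.count_main` with the factor `β`. -/
theorem count_mainB {β n₀ e : ℕ} (hβ : 1 ≤ β) (hn : 1 ≤ n₀)
    (he : 1000 * β * (n₀ : ℝ) ^ 2 * (6 + Real.log n₀) ^ 2 ≤ e) :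
    ∃ k : ℕ, 2 * n₀ ≤ k ∧ k ≤ e ∧ CountNWB β (2 * n₀) k e e ((2 * n₀ + 1 + 1) ^ 2) 2 100 := by
  have hβr : (1 : ℝ) ≤ β := by exact_mod_cast hβ
  have hβ0 : (0 : ℝ) < β := by linarith
  have he' : (β : ℝ) * (1000 * (n₀ : ℝ) ^ 2 * (6 + Real.log n₀) ^ 2) ≤ e :=
    le_trans (le_of_eq (by ring)) he
  have hfin := fun K h1 h2 => fin_num (n₀ := n₀) (K := K) hn h1 h2
  obtain ⟨n, hn'⟩ : ∃ n, n = 2 * n₀ := ⟨_, rfl⟩
  rw [← hn'] at hfin ⊢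
  have hn2 : 2 ≤ n := by omega
  have hnR : (2 : ℝ) ≤ n := by exact_mod_cast hn2
  have hlogn : 0 ≤ Real.log n := Real.log_nonneg (by linarith)
  obtain ⟨K, hKdef⟩ : ∃ K : ℕ, K = ⌈14 + 3 * Real.log n⌉₊ := ⟨_, rfl⟩
  have hKl : 14 + 3 * Real.log n ≤ K := by
    rw [hKdef]
    exact Nat.le_ceil _
  have hKu : (K : ℝ) ≤ 15 + 3 * Real.log n := by
    have h1 := Nat.ceil_lt_add_one (a := 14 + 3 * Real.log n) (by linarith)
    rw [← hKdef] at h1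
    linarith
  have hK14 : 14 ≤ K := by
    have h1 : (14 : ℝ) ≤ K := by linarith
    exact_mod_cast h1
  have hF := hfin K hKu (by omega)
  have hKn := hK_num (n := n) (K := K) hn2 hKl
  obtain ⟨k, hk⟩ : ∃ k, k = n * K := ⟨_, rfl⟩
  rw [← hk] at hF hKn
  have hk9 : 9 * n ≤ k := by
    rw [hk, mul_comm 9 n]
    exact Nat.mul_le_mul_left n (by omega)
  have hnk : n ≤ k := by omega
  have hk1 : 1 ≤ k := by omega
  have hkR : (18 : ℝ) ≤ k := by exact_mod_cast (show 18 ≤ k by omega)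
  have hE : (1 : ℝ) ≤ Real.exp 1 := Real.one_le_exp (by norm_num)
  have hn0 : (0 : ℝ) < n := by linarith
  have hk0 : (0 : ℝ) < k := by linarith
  have hlA : 0 < Real.log (4 * Real.exp 1 * ((n : ℝ) * k)) := by
    apply Real.log_pos
    nlinarith [mul_pos hn0 hk0]
  have hlB : 0 ≤ Real.log (8 * Real.exp 1 * (k : ℝ) ^ 2 * ((k : ℝ) + 1)) := by
    apply Real.log_nonneg
    have h1 : (1 : ℝ) ≤ (k : ℝ) ^ 2 := one_le_pow₀ (by linarith)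
    have h2 : (1 : ℝ) ≤ 8 * Real.exp 1 := by linarith
    have h3 : (1 : ℝ) ≤ 8 * Real.exp 1 * (k : ℝ) ^ 2 := one_le_mul_of_one_le_of_one_le h2 h1
    exact one_le_mul_of_one_le_of_one_le h3 (by linarith)
  obtain ⟨zm, hzdef⟩ : ∃ zm : ℝ, zm = (Real.log (4 * Real.exp 1 * ((n : ℝ) * k)) +
      n * Real.log (8 * Real.exp 1 * (k : ℝ) ^ 2 * ((k : ℝ) + 1))) / (n * k) := ⟨_, rfl⟩
  have hzm : 0 < zm := by
    rw [hzdef]
    have : 0 ≤ n * Real.log (8 * Real.exp 1 * (k : ℝ) ^ 2 * ((k : ℝ) + 1)) := mul_nonneg hn0.le hlB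
    positivity
  have hz : (n : ℝ) * k * zm = Real.log (4 * Real.exp 1 * ((n : ℝ) * k)) +
      n * Real.log (8 * Real.exp 1 * (k : ℝ) ^ 2 * ((k : ℝ) + 1)) := by
    rw [hzdef, mul_div_cancel₀ _ (mul_pos hn0 hk0).ne']
  have hkz : (k : ℝ) * zm = Real.log (8 * Real.exp 1 * (k : ℝ) ^ 2 * ((k : ℝ) + 1)) +
      Real.log (4 * Real.exp 1 * ((n : ℝ) * k)) / n := by
    have h1 : (n : ℝ) * (k * zm) = n * (Real.log (8 * Real.exp 1 * (k : ℝ) ^ 2 * ((k : ℝ) + 1)) +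
      Real.log (4 * Real.exp 1 * ((n : ℝ) * k)) / n) := by
      have hdiv : ∀ La Lb : ℝ, (n : ℝ) * (Lb + La / n) = La + n * Lb := fun La Lb => by
        rw [mul_add, mul_div_cancel₀ _ hn0.ne']
        ring
      rw [← mul_assoc, hz, hdiv]
    exact mul_left_cancel₀ hn0.ne' h1
  rw [← hkz] at hF
  obtain ⟨τ, hτdef⟩ : ∃ τ : ℝ, τ = 8 / (9 * Real.exp 1 ^ 2) / ((n : ℝ) * ((k : ℝ) + 1)) := ⟨_, rfl⟩
  have hτ : 0 < τ := by
    rw [hτdef]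
    positivity
  have hinv : τ * ((n : ℝ) * ((k : ℝ) + 1) * (9 * Real.exp 1 ^ 2 / 8)) = 1 := by
    rw [hτdef]
    field_simp
  have hD1 : 1 ≤ (n : ℝ) * ((k : ℝ) + 1) * (9 * Real.exp 1 ^ 2 / 8) := by
    have h1 : (1 : ℝ) ≤ Real.exp 1 ^ 2 := one_le_pow₀ hE
    have h2 : (1 : ℝ) ≤ 9 * Real.exp 1 ^ 2 / 8 := by linarith
    have h3 : (1 : ℝ) ≤ (n : ℝ) * ((k : ℝ) + 1) := by nlinarith
    exact one_le_mul_of_one_le_of_one_le h3 h2
  have hτ1 : τ ≤ 1 := by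
    calc τ = τ * 1 := (mul_one _).symm
      _ ≤ τ * ((n : ℝ) * ((k : ℝ) + 1) * (9 * Real.exp 1 ^ 2 / 8)) := mul_le_mul_of_nonneg_left hD1 hτ.le
      _ = 1 := hinv
  have hFe := (mul_lt_mul_of_pos_left hF hβ0).trans_le he'
  have hkzp : 0 < (k : ℝ) * zm := mul_pos hk0 hzm
  have hgap : (β : ℝ) * (101 / 100 * (2 + 8 / 3 * ((k : ℝ) * zm))) < τ * e := by
    have h1 := mul_lt_mul_of_pos_left hFe hτ
    have h2 : τ * ((β : ℝ) * (101 / 100 * (2 + 8 / 3 * ((k : ℝ) * zm)) *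
        ((n : ℝ) * ((k : ℝ) + 1) * (9 * Real.exp 1 ^ 2 / 8)))) =
        (β : ℝ) * (101 / 100 * (2 + 8 / 3 * ((k : ℝ) * zm))) := by
      calc _ = (β : ℝ) * (101 / 100 * (2 + 8 / 3 * ((k : ℝ) * zm))) *
          (τ * ((n : ℝ) * ((k : ℝ) + 1) * (9 * Real.exp 1 ^ 2 / 8))) := by ring
        _ = _ := by rw [hinv, mul_one]
    rwa [h2] at h1
  have hke : k ≤ e := by
    have h1 : (k : ℝ) ≤ e := by
      have h2 : (n : ℝ) * ((k : ℝ) + 1) * 1 ≤ (n : ℝ) * ((k : ℝ) + 1) * (9 * Real.exp 1 ^ 2 / 8) := by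
        refine mul_le_mul_of_nonneg_left ?_ (by positivity)
        have h3 : (1 : ℝ) ≤ Real.exp 1 ^ 2 := one_le_pow₀ hE
        linarith
      have h4 : (k : ℝ) ≤ (n : ℝ) * ((k : ℝ) + 1) := by nlinarith
      have h5 : (1 : ℝ) ≤ 101 / 100 * (2 + 8 / 3 * ((k : ℝ) * zm)) := by linarith
      have h6 : 1 * ((n : ℝ) * ((k : ℝ) + 1) * (9 * Real.exp 1 ^ 2 / 8)) ≤
          101 / 100 * (2 + 8 / 3 * ((k : ℝ) * zm)) *
            ((n : ℝ) * ((k : ℝ) + 1) * (9 * Real.exp 1 ^ 2 / 8)) :=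
        mul_le_mul_of_nonneg_right h5 (by linarith)
      have h7 : 1 * (101 / 100 * (2 + 8 / 3 * ((k : ℝ) * zm)) *
            ((n : ℝ) * ((k : ℝ) + 1) * (9 * Real.exp 1 ^ 2 / 8))) ≤
          (β : ℝ) * (101 / 100 * (2 + 8 / 3 * ((k : ℝ) * zm)) *
            ((n : ℝ) * ((k : ℝ) + 1) * (9 * Real.exp 1 ^ 2 / 8))) :=
        mul_le_mul_of_nonneg_right hβr (by linarith)
      linarith
    exact_mod_cast h1
  obtain ⟨σ, hσ1, hσ2⟩ := exists_between hgap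
  have hG0 : 0 < (β : ℝ) * (101 / 100 * (2 + 8 / 3 * ((k : ℝ) * zm))) := by positivity
  have hσ : 0 < σ := by linarith
  let p0 : Fin n × Fin k := (⟨0, by omega⟩, ⟨0, by omega⟩)
  have hI := hI_of (n := n) (k := k) (by omega) hk1 p0 rfl (zm := zm) hz.ge
  have hII := hII_of (n := n) (k := k) hn2 hk9 (τ := τ) hτdef hKn
  have hmain := hmain_of (n := n) (k := k) (e := e) hn2 hnk (by omega) p0 hσ hτ hσ2 hτ1 hI hII
  refine ⟨k, hnk, hke, ?_⟩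
  refine countNWB_of_lim (β := β) (n := n) (k := k) (D := e) (e1 := e) (w := 2) (q := 100) hn2 hnk p0
    hσ hτ hzm hσ2 ?_ ?_
  · push_cast
    linarith
  · have h9 : (((n + 1 + 1) ^ 2 : ℕ) : ℝ) = ((n : ℝ) + 2) ^ 2 := by
      push_cast
      ring
    rw [h9]
    exact hmain

end Pool.Agent.H78Y
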