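import Pool.Agent.Lib.H78Y.D0
import Pool.Agent.Lib.H78W.K9

set_option autoImplicit false

/-!
H78Y: numerics of the two cases of Theorem W (the proofs of H78W/K9.lean with a factor `β`).
-/

open Filter Topology

namespace Pool.Agent.H78Y

open Pool.Agent.H53V Pool.Agent.H78N Pool.Agent.H78W

theorem LB_pos {β n : ℕ} (hβ : 1 ≤ β) (hn : 1 ≤ n) : 6 ≤ LB β n ∧ 6 + Real.log n ≤ LB β n := by
  have hβr : (1 : ℝ) ≤ β := by exact_mod_cast hβ
  have hlβ : 0 ≤ Real.log β := Real.log_nonneg hβr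
  have hnr : (1 : ℝ) ≤ n := by exact_mod_cast hn
  have hln : 0 ≤ Real.log n := Real.log_nonneg hnr
  have hy0 : 0 ≤ Real.log β / (3 * n) := by positivity
  unfold LB
  constructor
  · linarith
  · linarith

/-- `n * LB β n` is monotone in `n`. -/
theorem LB_mono {β n n' : ℕ} (hn : 1 ≤ n) (h : n ≤ n') : (n : ℝ) * LB β n ≤ n' * LB β n' := by
  have hnr : (1 : ℝ) ≤ n := by exact_mod_cast hn
  have hnn : (n : ℝ) ≤ n' := by exact_mod_cast h
  have hl : Real.log n ≤ Real.log n' := Real.log_le_log (by linarith) hnn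
  have hln : 0 ≤ Real.log n := Real.log_nonneg hnr
  have e1 : ∀ x : ℕ, (1 : ℝ) ≤ x → (x : ℝ) * LB β x = x * (6 + Real.log x) + Real.log β / 3 := by
    intro x hx
    unfold LB
    have : (x : ℝ) ≠ 0 := by linarith
    field_simp
    ring
  rw [e1 n hnr, e1 n' (by linarith)]
  have h1 : (n : ℝ) * (6 + Real.log n) ≤ n' * (6 + Real.log n') :=
    mul_le_mul hnn (by linarith) (by linarith) (by linarith)
  linarith

/-- `KB β n ≤ 20 + 4 (log (2 n) + (log β) / (3 n)) ≤ 4 LB β n`. -/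
theorem kB_le {β n : ℕ} (hβ : 1 ≤ β) (hn : 1 ≤ n) : (kB β n : ℝ) ≤ 8 * n * LB β n := by
  have hβr : (1 : ℝ) ≤ β := by exact_mod_cast hβ
  have hlβ : 0 ≤ Real.log β := Real.log_nonneg hβr
  have hn1 : (1 : ℝ) ≤ n := by exact_mod_cast hn
  have hn0 : (0 : ℝ) < n := by linarith
  have hl2 := Real.log_two_lt_d9
  have hl2' := Real.log_two_gt_d9
  have hx0 : 0 ≤ Real.log n := Real.log_nonneg hn1
  have hy0 : 0 ≤ Real.log β / (3 * n) := by positivity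
  have e1 : Real.log ((2 * n : ℕ) : ℝ) = Real.log 2 + Real.log n := by
    push_cast
    exact Real.log_mul (by norm_num) hn0.ne'
  have h1 : (KB β n : ℝ) < 19 + 4 * (Real.log ((2 * n : ℕ) : ℝ) + Real.log β / (3 * n)) + 1 := by
    unfold KB
    refine Nat.ceil_lt_add_one ?_
    rw [e1]
    linarith
  rw [e1] at h1
  have h2 : (KB β n : ℝ) ≤ 4 * LB β n := by
    unfold LB
    linarith
  unfold kB
  push_cast
  have h3 := mul_le_mul_of_nonneg_left h2 (show (0 : ℝ) ≤ 2 * n by linarith)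
  linarith

theorem le_kB {β n : ℕ} (hβ : 1 ≤ β) (hn : 1 ≤ n) : 38 * n ≤ kB β n := by
  have hβr : (1 : ℝ) ≤ β := by exact_mod_cast hβ
  have hlβ : 0 ≤ Real.log β := Real.log_nonneg hβr
  have hn1 : (1 : ℝ) ≤ ((2 * n : ℕ) : ℝ) := by exact_mod_cast (by omega : 1 ≤ 2 * n)
  have hn2 : (1 : ℝ) ≤ n := by exact_mod_cast hn
  have hx0 : 0 ≤ Real.log ((2 * n : ℕ) : ℝ) := Real.log_nonneg hn1
  have hy0 : 0 ≤ Real.log β / (3 * n) := by positivity
  have h1 : 19 ≤ KB β n := by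
    have h2 : (19 : ℝ) ≤ (KB β n : ℝ) := by
      have h3 : 19 + 4 * (Real.log ((2 * n : ℕ) : ℝ) + Real.log β / (3 * n)) ≤ (KB β n : ℝ) := by
        unfold KB
        exact Nat.le_ceil _
      linarith
    exact_mod_cast h2
  unfold kB
  nlinarith

/-- `H78W.caseTwo_num` with the factor `β`. -/
theorem caseTwo_numB {β n c : ℕ} (hβ : 1 ≤ β) (hn : 1 ≤ n) (hc : 2 * (c : ℝ) ≤ 4 * n + 8 * n * LB β n) :
    1750 * β * ((n + c : ℕ) : ℝ) ^ 2 * LB β (n + c) ^ 2 + c * (8 * ((n + c : ℕ) : ℝ) * LB β (n + c)) ≤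
      90000 * β * (n : ℝ) ^ 2 * LB β n ^ 4 := by
  have hβr : (1 : ℝ) ≤ β := by exact_mod_cast hβ
  have hlβ : 0 ≤ Real.log β := Real.log_nonneg hβr
  have hn1 : (1 : ℝ) ≤ n := by exact_mod_cast hn
  have hn0 : (0 : ℝ) < n := by linarith
  have hl2 := Real.log_two_lt_d9
  have hl2' := Real.log_two_gt_d9
  have hx0 : 0 ≤ Real.log n := Real.log_nonneg hn1
  have hc0 : (0 : ℝ) ≤ c := Nat.cast_nonneg c
  obtain ⟨t, ht⟩ : ∃ t : ℝ, t = Real.log β / (3 * n) := ⟨_, rfl⟩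
  have ht0 : 0 ≤ t := by rw [ht]; positivity
  have ht1 : Real.log β / (3 * ((n + c : ℕ) : ℝ)) ≤ t := by
    rw [ht]
    push_cast
    refine div_le_div_of_nonneg_left hlβ (by positivity) (by linarith)
  obtain ⟨y, hy⟩ : ∃ y : ℝ, y = LB β n := ⟨_, rfl⟩
  have hy' : y = 6 + (Real.log n + t) := by
    rw [hy, ht]
    rfl
  obtain ⟨M, hMdef⟩ : ∃ M : ℝ, M = LB β (n + c) := ⟨_, rfl⟩
  have hM' : M = 6 + (Real.log ((n + c : ℕ) : ℝ) + Real.log β / (3 * ((n + c : ℕ) : ℝ))) := by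
    rw [hMdef]
    rfl
  rw [← hy] at hc ⊢
  rw [← hMdef]
  have ht2 : 0 ≤ Real.log β / (3 * ((n + c : ℕ) : ℝ)) := by positivity
  push_cast at hM' ht1 ht2 ⊢
  have hy6 : 6 ≤ y := by linarith
  have hy0 : 0 < y := by linarith
  obtain ⟨N1, hN1⟩ : ∃ N1 : ℝ, N1 = (n : ℝ) + c := ⟨_, rfl⟩
  rw [← hN1] at hM' ht1 ht2 ⊢
  have hN10 : 0 < N1 := by linarith
  have hny : 0 < (n : ℝ) * y := mul_pos hn0 hy0
  have hN1le : N1 ≤ 45 / 10 * (n * y) := by
    have h1 : 6 * (n : ℝ) ≤ n * y := by nlinarith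
    linarith
  have hlog : Real.log N1 ≤ Real.log (27 / 6) + Real.log n + Real.log y := by
    have h1 := Real.log_le_log hN10 (show N1 ≤ 27 / 6 * (n * y) by linarith)
    rw [Real.log_mul (by norm_num) hny.ne', Real.log_mul hn0.ne' hy0.ne'] at h1
    linarith
  have hlogy : Real.log y ≤ y / 6 + Real.log 6 - 1 := by
    have h := Real.log_le_sub_one_of_pos (show (0 : ℝ) < y / 6 by positivity)
    rw [Real.log_div hy0.ne' (by norm_num)] at h
    linarith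
  have h27 : Real.log (27 / 6) + Real.log 6 ≤ 5 * Real.log 2 - 5 / 32 := by
    have h := Real.log_le_sub_one_of_pos (show (0 : ℝ) < 27 / 32 by norm_num)
    rw [Real.log_div (by norm_num) (by norm_num)] at h
    have h32 : Real.log 32 = 5 * Real.log 2 := by
      rw [show (32 : ℝ) = 2 ^ 5 by norm_num, Real.log_pow]
      norm_num
    rw [h32] at h
    rw [Real.log_div (by norm_num) (by norm_num)]
    linarith
  have hM : M ≤ 1552 / 1000 * y := by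
    linarith
  have hM0 : 0 ≤ M := by
    have h1 : Real.log n ≤ Real.log N1 := Real.log_le_log hn0 (by linarith)
    linarith
  have hP : N1 * M ≤ 6984 / 1000 * (n * y ^ 2) := by
    have h1 := mul_le_mul hN1le hM hM0 (by positivity)
    refine h1.trans (le_of_eq ?_)
    ring
  have hP0 : 0 ≤ N1 * M := mul_nonneg hN10.le hM0
  have h1 : 1750 * N1 ^ 2 * M ^ 2 ≤ 1750 * (6984 / 1000 * (n * y ^ 2)) ^ 2 := by
    have h2 : (N1 * M) ^ 2 ≤ (6984 / 1000 * (n * y ^ 2)) ^ 2 := pow_le_pow_left₀ hP0 hP 2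
    have h3 : 1750 * N1 ^ 2 * M ^ 2 = 1750 * (N1 * M) ^ 2 := by ring
    rw [h3]
    linarith
  have h2 : (c : ℝ) * (8 * N1 * M) ≤ 8 * (45 / 10 * (n * y)) * (6984 / 1000 * (n * y ^ 2)) := by
    have h3 : (c : ℝ) * (8 * N1 * M) ≤ N1 * (8 * N1 * M) :=
      mul_le_mul_of_nonneg_right (by linarith) (by positivity)
    have h4 : N1 * (8 * N1 * M) = 8 * N1 * (N1 * M) := by ring
    rw [h4] at h3
    refine h3.trans ?_
    exact mul_le_mul (by linarith) hP hP0 (by positivity)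
  have h3 : (n : ℝ) ^ 2 * y ^ 3 * 6 ≤ (n : ℝ) ^ 2 * y ^ 4 := by
    have h4 : 0 ≤ (n : ℝ) ^ 2 * y ^ 3 := by positivity
    have h5 : (n : ℝ) ^ 2 * y ^ 4 = (n : ℝ) ^ 2 * y ^ 3 * y := by ring
    rw [h5]
    exact mul_le_mul_of_nonneg_left hy6 h4
  have h5 : 1750 * (6984 / 1000 * ((n : ℝ) * y ^ 2)) ^ 2
      = 1750 * (6984 / 1000) ^ 2 * ((n : ℝ) ^ 2 * y ^ 4) := by ring
  have h6 : 8 * (45 / 10 * ((n : ℝ) * y)) * (6984 / 1000 * (n * y ^ 2))
      = 251424 / 1000 * ((n : ℝ) ^ 2 * y ^ 3) := by ring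
  have h7 : 0 ≤ (n : ℝ) ^ 2 * y ^ 4 := by positivity
  rw [h5] at h1
  rw [h6] at h2
  have h9 : (1750 : ℝ) * (6984 / 1000) ^ 2 ≤ 85400 := by norm_num
  have h10 := mul_le_mul_of_nonneg_right h9 h7
  have h11 : 1750 * N1 ^ 2 * M ^ 2 ≤ 85400 * ((n : ℝ) ^ 2 * y ^ 4) := by linarith
  have h12 := mul_le_mul_of_nonneg_left h11 (show (0 : ℝ) ≤ β by linarith)
  have h13 : (c : ℝ) * (8 * N1 * M) ≤ 42 * ((n : ℝ) ^ 2 * y ^ 4) := by linarith
  have h14 : 1 * (42 * ((n : ℝ) ^ 2 * y ^ 4)) ≤ β * (42 * ((n : ℝ) ^ 2 * y ^ 4)) :=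
    mul_le_mul_of_nonneg_right hβr (by positivity)
  have h15 : 0 ≤ (β : ℝ) * ((n : ℝ) ^ 2 * y ^ 4) := by positivity
  have e8 : 90000 * (β : ℝ) * (n : ℝ) ^ 2 * y ^ 4 = 90000 * (β * ((n : ℝ) ^ 2 * y ^ 4)) := by ring
  have e9 : 1750 * (β : ℝ) * N1 ^ 2 * M ^ 2 = β * (1750 * N1 ^ 2 * M ^ 2) := by ring
  rw [e8, e9]
  linarith

end Pool.Agent.H78Y
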