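import Pool.Agent.Lib.H78W.D0
import Pool.Agent.Lib.H78W.K0

set_option autoImplicit false

/-!
H78Y (bounds with a factor `β` in the twist, for symmetric powers): definitions.
-/

open MvPolynomial

namespace Pool.Agent.H78Y

open Pool.Agent.H89T Pool.Agent.H67T Pool.Agent.H53U Pool.Agent.H53V Pool.Agent.H78M Pool.Agent.H78W

/-- `PropV` of H53V with the factor `β`. -/
def PropVB (β n k q : ℕ) {c : ℕ} (J : Finset (Fin c)) (d : Fin c → ℕ) : Prop :=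
  ∃ m a0 s μ : ℕ, β * ((q + 1) * (a0 + 2 * m + 2 * k * μ)) + 1 ≤ q * s ∧ ∀ l : Fin (n + c) → ℂ,
    ∃ (r : ℕ) (P Q : Fin r → MvPolynomial (JV (n + c) k) (RC (n + c) d)),
      H53V.tau (FrI n J) k m μ < r ∧ (∀ i, BiK a0 m (P i)) ∧ (∀ i, BiK a0 m (Q i)) ∧
      (∀ i, linK k (fun b => C (l b)) ^ s * P i - Q i ∈ IK k J (gc (n + c) d)) ∧
      ∃ (a : CI (n + c) d → ℂ) (x : Fin (n + c) → ℂ), (∀ j, U0 a x j = 0) ∧
        (MJ J (tra (fun b => - x b) a)).det ≠ 0 ∧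
        LinearIndependent ℂ fun i => ResX k J a x (map (eval a) (P i))

/-- `AlgK` of H53V with the factor `β`. -/
def AlgKB (β n k q : ℕ) {c : ℕ} (d : Fin c → ℕ) : Prop :=
  ∃ M s : ℕ, β * ((q + 1) * M) + 1 ≤ q * s ∧ ∀ l : Fin (n + c) → ℂ, ∃ Θ : RC (n + c) d,
    (∃ a : CI (n + c) d → ℂ, (∀ j, U0 a 0 j = 0) ∧ eval a Θ ≠ 0) ∧
    ∀ a : CI (n + c) d → ℂ, (∀ j, U0 a 0 j = 0) → eval a Θ ≠ 0 →
      ∀ ξ : JV (n + c) k → ℂ, (∀ b, ξ (b, 0) = 0) → (∃ b, ξ (b, 1) ≠ 0) →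
        (∀ j, ∀ i ≤ k, uV a ξ j i = 0) →
        ∃ (P Q : MvPolynomial (JV (n + c) k) ℂ) (t : ℂ), HasWt M P ∧ HasWt M Q ∧
          (linK k l + C t) ^ s * P - Q ∈ IK k Finset.univ a ∧ eval ξ P ≠ 0

/-- `CountV` of H53V with the factor `β`. -/
def CountVB (β n k q : ℕ) {c : ℕ} (J : Finset (Fin c)) (d : Fin c → ℕ) : Prop :=
  ∀ a0 : ℕ, ∃ m s μ : ℕ, β * ((q + 1) * (a0 + 2 * m + 2 * k * μ)) + 1 ≤ q * s ∧
    ∑ r ∈ Finset.range n, (a0 + s + (n - r)).choose (n - r) * ErV (FrI n J) k J d r m +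
      tau (FrI n J) k m μ * (a0 + 2 * m * (∑ j ∈ J, (d j - 1)) + n).choose n <
      ErV (FrI n J) k J d n m

/-- `PropE0` of H78M with the factor `β`. -/
def PropE0B (β n k q : ℕ) {c : ℕ} (J : Finset (Fin c)) (d : Fin c → ℕ) : Prop :=
  ∃ m a0 s μ : ℕ, β * ((q + 1) * (a0 + 2 * m + 2 * k * μ)) + 1 ≤ q * s ∧ ∀ l : Fin (n + c) → ℂ,
    ∃ (ρ : ℕ) (P Q : Fin ρ → MvPolynomial (JV (n + c) k) (RC (n + c) d)) (y : ℂ),
      H53V.tau (H53V.FrI n J) k m μ < ρ ∧ (∀ i, BiDegK a0 m (P i)) ∧ (∀ i, BiDegK a0 m (Q i)) ∧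
      (∀ i, (H53V.linK k (fun b => C (l b)) + C (C y)) ^ s * P i - Q i ∈
        IIK (kJ k J) (gc (n + c) d)) ∧
      ∃ (a : CI (n + c) d → ℂ) (ξ : Fin ρ → JV (n + c) k → ℂ),
        (∀ t b, ξ t (b, 0) = 0) ∧ (∀ t, OnV (kJ k J) a (ξ t)) ∧ (H53V.MJ J a).det ≠ 0 ∧
        (Matrix.of fun t s => evK a (ξ s) (P t)).det ≠ 0

/-- `PropVW` of H78W with the factor `β`. -/
def PropVWB (β n k q : ℕ) {c : ℕ} (d : Fin c → ℕ) : Prop :=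
  ∃ m a0 s μ : ℕ, β * ((q + 1) * (a0 + 2 * m + 7 * k * μ)) + 1 ≤ q * s ∧ ∀ l : Fin (n + c) → ℂ,
    ∃ (r : ℕ) (P Q : Fin r → MvPolynomial (JV (n + c) k) (RC (n + c) d)),
      H53V.tau (H53V.FrI n (Finset.univ : Finset (Fin c))) k m μ < r ∧ (∀ i, H53V.BiK a0 m (P i)) ∧
      (∀ i, H53V.BiK a0 m (Q i)) ∧
      (∀ i, H53V.linK k (fun b => C (l b)) ^ s * P i - Q i ∈
        H53V.IK k Finset.univ (gc (n + c) d)) ∧
      ∃ (a : CI (n + c) d → ℂ) (x : Fin (n + c) → ℂ), (∀ j, U0 a x j = 0) ∧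
        (H53V.MJ Finset.univ (tra (fun b => - x b) a)).det ≠ 0 ∧
        LinearIndependent ℂ fun i => H53V.ResX k Finset.univ a x (map (eval a) (P i))

/-- `PropE0W` of H78W with the factor `β`. -/
def PropE0WB (β n k q : ℕ) {c : ℕ} (d : Fin c → ℕ) : Prop :=
  ∃ m a0 s μ : ℕ, β * ((q + 1) * (a0 + 2 * m + 7 * k * μ)) + 1 ≤ q * s ∧ ∀ l : Fin (n + c) → ℂ,
    ∃ (ρ : ℕ) (P Q : Fin ρ → MvPolynomial (JV (n + c) k) (RC (n + c) d)) (y : ℂ),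
      H53V.tau (H53V.FrI n (Finset.univ : Finset (Fin c))) k m μ < ρ ∧ (∀ i, BiDegK a0 m (P i)) ∧
      (∀ i, BiDegK a0 m (Q i)) ∧
      (∀ i, (H53V.linK k (fun b => C (l b)) + C (C y)) ^ s * P i - Q i ∈
        IIK (kJ k Finset.univ) (gc (n + c) d)) ∧
      ∃ (a : CI (n + c) d → ℂ) (ξ : Fin ρ → JV (n + c) k → ℂ),
        (∀ t b, ξ t (b, 0) = 0) ∧ (∀ t, OnV (kJ k Finset.univ) a (ξ t)) ∧
        (H53V.MJ Finset.univ a).det ≠ 0 ∧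
        (Matrix.of fun t s => evK a (ξ s) (P t)).det ≠ 0

/-- `AlgKW` of H78W with the factor `β`. -/
def AlgKWB (β n k q : ℕ) {c : ℕ} (d : Fin c → ℕ) : Prop :=
  ∃ M s : ℕ, β * ((q + 1) * M) + 1 ≤ q * s ∧ ∀ l : Fin (n + c) → ℂ, ∃ Θ : RC (n + c) d,
    (∃ a : CI (n + c) d → ℂ, (∀ j, U0 a 0 j = 0) ∧ eval a Θ ≠ 0) ∧
    ∀ a : CI (n + c) d → ℂ, (∀ j, U0 a 0 j = 0) → eval a Θ ≠ 0 →
      ∀ ξ : JV (n + c) k → ℂ, (∀ b, ξ (b, 0) = 0) → QND ξ →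
        (∀ j, ∀ i ≤ k, H53V.uV a ξ j i = 0) →
        ∃ (P Q : MvPolynomial (JV (n + c) k) ℂ) (t : ℂ), HasPole M P ∧ HasPole M Q ∧
          (H53V.linK k l + C t) ^ s * P - Q ∈ H53V.IK k Finset.univ a ∧ eval ξ P ≠ 0

/-- `PropQ` of H53U with the factor `β`. -/
def PropQB (β n q : ℕ) {c : ℕ} (d : Fin c → ℕ) : Prop :=
  ∃ (m a0 s : ℕ), β * ((q + 1) * (a0 + 4 * m)) + 1 ≤ q * s ∧ ∀ l : Fin (n + c) → ℂ,
    ∃ P : MvPolynomial (JV (n + c) 1) (RC (n + c) d), BiDeg a0 m P ∧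
      (∃ Q : MvPolynomial (JV (n + c) 1) (RC (n + c) d), BiDeg a0 m Q ∧
        linL (fun b => C (l b)) ^ s * P - Q ∈ II (gc (n + c) d)) ∧
      ∃ (a : CI (n + c) d → ℂ) (x v : Fin (n + c) → ℂ) (i : Fin n),
        (∀ j, U0 a x j = 0) ∧ (∀ j, U1 a x v j = 0) ∧ v (Fin.castAdd c i) ≠ 0 ∧ evJ a x v P ≠ 0

/-- `AlgQ` of H53U with the factor `β`. -/
def AlgQB (β n q : ℕ) {c : ℕ} (d : Fin c → ℕ) : Prop :=
  ∃ M s : ℕ, β * ((q + 1) * M) + 1 ≤ q * s ∧ ∀ l : Fin (n + c) → ℂ, ∃ Θ : RC (n + c) d,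
    (∃ a : CI (n + c) d → ℂ, (∀ j, U0 a 0 j = 0) ∧ eval a Θ ≠ 0) ∧
    ∀ a : CI (n + c) d → ℂ, (∀ j, U0 a 0 j = 0) → eval a Θ ≠ 0 →
      ∀ v : Fin (n + c) → ℂ, v ≠ 0 → (∀ j, U1 a 0 v j = 0) →
        ∃ (P Q : MvPolynomial (JV (n + c) 1) ℂ) (t : ℂ), HasWt M P ∧ HasWt M Q ∧
          (linL l + C t) ^ s * P - Q ∈ II a ∧ eval (JJ 0 v) P ≠ 0

/-- The conclusion of the count of H78W with the factor `β`. -/
def CountNWB (β n k D e1 B w q : ℕ) : Prop :=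
  ∀ A0 : ℕ, ∃ m s t μ : ℕ, s + (n + 2) * D ≤ D * t ∧
    β * ((q + 1) * (A0 + 2 * m + w * k * μ)) + 1 ≤ q * s ∧
    tau (Fin n) k m μ * (A0 + 2 * m * D + n).choose n +
      B * Pool.Agent.H78N.badN n k m t * (A0 + s + D * m + n).choose n <
        e1 ^ n * Pool.Agent.H78N.goodN n k m t

/-- The number `K`, for `n = 2 n₀` and the factor `β`. -/
noncomputable def KB (β n₀ : ℕ) : ℕ :=
  ⌈19 + 4 * (Real.log ((2 * n₀ : ℕ) : ℝ) + Real.log β / (3 * n₀))⌉₊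

/-- The order of the jets. -/
noncomputable def kB (β n₀ : ℕ) : ℕ := 2 * n₀ * KB β n₀

/-- `6 + log n + (log β) / (3 n)`. -/
noncomputable def LB (β n : ℕ) : ℝ := 6 + (Real.log n + Real.log β / (3 * n))

end Pool.Agent.H78Y
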