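import Pool.Agent.Lib.H78Y.D0
import Pool.Agent.Lib.H53V.EMain

set_option autoImplicit false

/-!
H78Y: existence (the proofs of H53V/EMain.lean with a factor `β`).
-/

open MvPolynomial

namespace Pool.Agent.H78Y

open Pool.Agent.H89T Pool.Agent.H67T Pool.Agent.H53U Pool.Agent.H53V

/-- The proof of `H53V.propV_of_dimV` with the factor `β`. -/
theorem propVB_of_dimV {β n k q c : ℕ} (hn : 1 ≤ n) (J : Finset (Fin c)) {d : Fin c → ℕ}
    (hd : ∀ j, 1 ≤ d j) :
    ∃ A₀ : ℕ, ∀ a0 ≥ A₀, ∀ m s μ R : ℕ,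
      tau (FrI n J) k m μ *
        ((∏ j, d j) * (a0 + 2 * m * (∑ j ∈ J, (d j - 1)) + n).choose n) < R →
      β * ((q + 1) * (a0 + 2 * m + 2 * k * μ)) + 1 ≤ q * s →
      (∀ l, DimV n k J d m a0 s R l) → PropVB β n k q J d := by
  obtain ⟨A₀, hA₀, hH⟩ := hilb_gen (k := k) hn J hd
  refine ⟨A₀, fun a0 ha0 m s μ R hR hq hD => ?_⟩
  refine ⟨m, a0, s, μ, hq, fun l => ?_⟩
  have hU := (hH (a0 + 2 * m * ∑ j ∈ J, (d j - 1)) (by omega) 0).2.2
  obtain ⟨ι, P, Q, hι, hP, hQ, hrel, hli⟩ := exists_over_K J hA₀ ha0 hU hR l (hD l)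
  have hcl := fun i => clear_rel J (P i) (Q i) (hP i) (hQ i) l (hrel i)
  choose ρ P' Q' hρ hP' hQ' hmap hrel' using hcl
  refine ⟨tau (FrI n J) k m μ + 1, P', Q', Nat.lt_succ_self _, hP', hQ', hrel', ?_⟩
  refine complex_point J hd P' ?_
  -- the generic coefficients
  have hg : (fun p => ι (gK (n + c) d p)) = g1K (n + c) d := by
    funext p
    have h1 := hι (gc (n + c) d p)
    have h2 : phi1 (n + c) d (gc (n + c) d p) = g1 (n + c) d p := by
      unfold phi1 gc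
      exact aeval_X _ _
    rw [h2] at h1
    exact h1
  rw [hg] at hli
  have hcomp : ι.comp (algebraMap (RC (n + c) d) (KF (n + c) d)) =
      (algebraMap (R1 (n + c) d) (K1 (n + c) d)).comp (phi1 (n + c) d) :=
    RingHom.ext hι
  have hmapι : ∀ i, map ((algebraMap (R1 (n + c) d) (K1 (n + c) d)).comp (phi1 (n + c) d)) (P' i) =
      C (ι (algebraMap (RC (n + c) d) (KF (n + c) d) (ρ i))) * map ι (P i) := by
    intro i
    rw [← hcomp, ← MvPolynomial.map_map, hmap i, map_mul, map_C]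
  have hne : ∀ i, ι (algebraMap (RC (n + c) d) (KF (n + c) d) (ρ i)) ≠ 0 := by
    intro i h0
    have h1 : algebraMap (RC (n + c) d) (KF (n + c) d) (ρ i) = 0 :=
      (map_eq_zero ι).mp h0
    have h2 : ρ i = 0 := by
      have hinj := IsFractionRing.injective (RC (n + c) d) (KF (n + c) d)
      exact hinj (by rw [h1, map_zero])
    exact hρ i h2
  have hfin := hli.units_smul (fun i => Units.mk0 _ (hne i))
  have heq : (fun i => ResX k J (g1K (n + c) d) (x1K (n + c) d)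
        (map ((algebraMap (R1 (n + c) d) (K1 (n + c) d)).comp (phi1 (n + c) d)) (P' i))) =
      ((fun i => Units.mk0 _ (hne i)) • fun i => ResX k J (g1K (n + c) d) (x1K (n + c) d)
        (map ι (P i))) := by
    funext i
    rw [hmapι i, map_mul]
    rw [Pi.smul_apply', Units.smul_mk0, smul_eq_C_mul]
    congr 1
    have h3 := (ResX k J (g1K (n + c) d) (x1K (n + c) d)).commutes
      (ι (algebraMap (RC (n + c) d) (KF (n + c) d) (ρ i)))
    rw [algebraMap_eq, algebraMap_eq] at h3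
    exact h3
  rw [heq]
  exact hfin

/-- The proof of `H53V.propV_of_countV` with the factor `β`. -/
theorem propVB_of_countVB {β n k q c : ℕ} (hn : 1 ≤ n) (hk : 1 ≤ k) (J : Finset (Fin c)) {d : Fin c → ℕ}
    (hd : ∀ j, 1 ≤ d j) (h : CountVB β n k q J d) : PropVB β n k q J d := by
  obtain ⟨A₁, _, hH⟩ := hilb_gen (k := k) hn J hd
  obtain ⟨A₂, hA₂⟩ := propVB_of_dimV (β := β) (k := k) (q := q) hn J hd
  obtain ⟨m, s, μ, hq, hcount⟩ := h (max A₁ A₂)
  refine hA₂ (max A₁ A₂) (le_max_right _ _) m s μ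
    (tau (FrI n J) k m μ *
      ((∏ j, d j) * ((max A₁ A₂) + 2 * m * (∑ j ∈ J, (d j - 1)) + n).choose n) + 1)
    (Nat.lt_succ_self _) hq fun l => ?_
  refine dimV_of_V0 J d m (max A₁ A₂) s _ l ?_
  exact dimV0 J hd (A₀ := A₁) (fun A hA m => ⟨(hH A hA m).1, (hH A hA m).2.1⟩) (le_max_left _ _)
    hcount l

end Pool.Agent.H78Y
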