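import Pool.Agent.Lib.H78Y.A1
import Pool.Agent.Lib.H24V.R2
import Pool.Agent.Lib.H24V.R5

set_option autoImplicit false

/-!
H78Y: the transfers for points over differential fields (H24V), and the bounds for `HypL`.
-/

open MvPolynomial

namespace Pool.Agent.H78Y

open Pool.Agent.H89T Pool.Agent.H67T Pool.Agent.H53U Pool.Agent.H24V

/-- Dropping equations: the proof of `H78W.hypU_of_sub`. -/
theorem hypL_of_sub {B N c c' : ℕ} {d : Fin c → ℕ} (e : Fin c' → Fin c) (he : Function.Injective e)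
    (h : HypL B N fun j => d (e j)) : HypL B N d := by
  classical
  obtain ⟨Θ, ⟨F₀, hF₀, hF₀Θ⟩, hΘ⟩ := h
  have hval : ∀ F : Fin c → MvPolynomial (Fin (N + 1)) ℂ,
      cvs (rename (fun p : Fin c' × (Fin (N + 1) →₀ ℕ) => (e p.1, p.2)) Θ) F =
        cvs Θ (fun j => F (e j)) := by
    intro F
    rw [cvs, cvs, eval_rename]
    rfl
  refine ⟨rename (fun p : Fin c' × (Fin (N + 1) →₀ ℕ) => (e p.1, p.2)) Θ,
    ⟨fun j => if hj : ∃ j', e j' = j then F₀ hj.choose else 0, fun j => ?_, ?_⟩, ?_⟩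
  · beta_reduce
    split_ifs with hj
    · have h1 : (F₀ hj.choose).IsHomogeneous (d (e hj.choose)) := hF₀ hj.choose
      rwa [hj.choose_spec] at h1
    · exact isHomogeneous_zero _ _ _
  · rw [hval]
    have h1 : (fun j : Fin c' => (if hj : ∃ j', e j' = e j then F₀ hj.choose else 0 :
        MvPolynomial (Fin (N + 1)) ℂ)) = F₀ := by
      funext j
      have hj : ∃ j', e j' = e j := ⟨j, rfl⟩
      rw [dif_pos hj]
      exact congrArg F₀ (he hj.choose_spec)
    rw [h1]
    exact hF₀Θ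
  · intro F hF hFΘ L _ _ D hL y hy
    rw [hval] at hFΘ
    exact hΘ (fun j => F (e j)) (fun j => hF (e j)) hFΘ L D hL y fun j => hy (e j)

/-- The transfers. -/
theorem tr1L (β : ℕ) : Tr1 β (fun n _ d => PtdL β n d) (fun N _ d => HypL β N d) where
  algK := by
    intro n k q c d hn hk hd h
    obtain ⟨M, s, hs, h⟩ := h
    exact ptdL_of hn hk hd hs h
  ry := fun _ hd h => hypL_of_ptdL hd h
  sub := fun e he h => hypL_of_sub e he h

end Pool.Agent.H78Y
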