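import Pool.Agent.Lib.H78Y.T1
import Pool.Agent.Lib.H24V.P5

set_option autoImplicit false

/-!
H78Y: the bounds for the symmetric powers.
-/

open MvPolynomial

namespace Pool.Agent.H78Y

open Pool.Agent.H24V

/-- Generic complete intersections of dimension `n` and type `d`: the `m`-th symmetric power contains no entire curve. -/
theorem symHyp_bounds {m n c : ℕ} (hm : 1 ≤ m) (hn : 1 ≤ n) {d : Fin c → ℕ} (hd : ∀ j, 2 ≤ d j)
    {β : ℕ} (hβ : β = 4 * m - 3)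
    (h : 17100 * (n : ℝ) ^ 4 * (1 + Real.log n) * β ^ 2 ≤ ∑ j, ((d j : ℝ) - 1) ∨
      250 * (n : ℝ) ^ 2 * (2 * (n : ℝ) + (Finset.univ.filter fun j => d j < 4 * n).card) *
        (1 + Real.log n) * β ≤ ∑ j ∈ Finset.univ.filter (fun j => 4 * n ≤ d j), ((d j : ℝ) - 1) ∨
      (∀ K : Finset (Fin c), K.card < 2 * n → 64 * n ^ 2 * β ≤ ∑ j ∈ Kᶜ, (d j - 1)) ∨
      (c = 1 ∧ ∀ j, 1 + 1000 * β * (n : ℝ) ^ 2 * (6 + Real.log n) ^ 2 ≤ d j) ∨
      ((∀ j, 8 * (n : ℝ) * (6 + (Real.log n + Real.log β / (3 * n))) ≤ d j) ∧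
        1750 * β * (n : ℝ) ^ 2 * (6 + (Real.log n + Real.log β / (3 * n))) ^ 2 ≤ ∑ j, ((d j : ℝ) - 1)) ∨
      2 * (c : ℝ) ≤ 4 * (n : ℝ) + 8 * n * (6 + (Real.log n + Real.log β / (3 * n))) ∧
        90000 * β * (n : ℝ) ^ 2 * (6 + (Real.log n + Real.log β / (3 * n))) ^ 4 ≤
          ∑ j, ((d j : ℝ) - 1)) :
    SymHyp m (n + c) d := by
  have h1 : HypL β (n + c) d := boundsB1 (tr1L β) (by omega) hn hd h
  rw [hβ] at h1
  exact symHyp_of_hypL h1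

end Pool.Agent.H78Y
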